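import Pool.Agent.H246.RS.Rot
import Pool.Graph.R_seed8.TH290.CL.Flow

/-!
# Families of diffeomorphisms given by flows, and their mean displacements
-/

set_option autoImplicit false
set_option linter.unusedSectionVars false

open scoped Manifold ContDiff Topology
open Filter Set Topology MeasureTheory

universe u

namespace Pool.Agent.H246.RS

open Pool.Agent.H718R2.G Pool.Agent.W564.SC Pool.Agent.TH290.CL

/-- `b` is the drift of the map `U : X → 𝕋^e` along `ψ`: `U ∘ ψ_t = U + b_t mod ℤ^e`, where `b` is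
continuous and `b_0 = 0`. -/
structure IsDrift {X : Type u} [TopologicalSpace X] {e : ℕ} (ψ : ℝ → X → X)
    (U : X → Fin e → UnitAddCircle) (b : ℝ → X → Fin e → ℝ) : Prop where
  cont : Continuous fun q : ℝ × X => b q.1 q.2
  zero : ∀ x, b 0 x = 0
  disp : ∀ t x i, U (ψ t x) i = U x i + ((b t x i : ℝ) : UnitAddCircle)

theorem int_const {X : Type*} [TopologicalSpace X] [PreconnectedSpace X] {w : X → ℝ}
    (hw : Continuous w) (hz : ∀ x, ((w x : ℝ) : UnitAddCircle) = 0) (x y : X) : w x = w y := by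
  have h1 := isPreconnected_univ.eqOn_const_of_mapsTo (S := (univ : Set X)) (f := w)
    (T := ((AddSubgroup.zmultiples (1 : ℝ)) : Set ℝ))
    ⟨(inferInstance : DiscreteTopology (AddSubgroup.zmultiples (1 : ℝ)))⟩ hw.continuousOn
    (fun z _ => by
      have := hz z
      rwa [AddCircle.coe_eq_zero_iff] at this)
    ⟨0, AddSubgroup.zero_mem _⟩
  obtain ⟨c, -, hc⟩ := h1
  have e1 := hc (mem_univ x)
  have e2 := hc (mem_univ y)
  simp only [Function.const] at e1 e2
  rw [e1, e2]

section drift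

variable {X : Type u} [TopologicalSpace X] {e : ℕ} {ψ : ℝ → X → X}
    {U : X → Fin e → UnitAddCircle} {b : ℝ → X → Fin e → ℝ}

theorem IsDrift.add (hb : IsDrift ψ U b) (hψ : ∀ s t y, ψ (s + t) y = ψ s (ψ t y)) (s t : ℝ) (x : X) :
    b (s + t) x = b s (ψ t x) + b t x := by
  funext i
  have hw : Continuous fun s : ℝ => b (s + t) x i - (b s (ψ t x) i + b t x i) := by
    have h1 : Continuous fun s : ℝ => b (s + t) x i :=
      (continuous_apply i).comp (hb.cont.comp (by fun_prop : Continuous fun s : ℝ => (s + t, x)))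
    have h2 : Continuous fun s : ℝ => b s (ψ t x) i :=
      (continuous_apply i).comp (hb.cont.comp (by fun_prop : Continuous fun s : ℝ => (s, ψ t x)))
    exact h1.sub (h2.add continuous_const)
  have hz : ∀ s : ℝ, ((b (s + t) x i - (b s (ψ t x) i + b t x i) : ℝ) : UnitAddCircle) = 0 := by
    intro s
    have e1 := hb.disp (s + t) x i
    rw [hψ, hb.disp s (ψ t x) i, hb.disp t x i] at e1
    rw [AddCircle.coe_sub, AddCircle.coe_add, sub_eq_zero]
    have e2 : U x i + ((b (s + t) x i : ℝ) : UnitAddCircle) =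
        U x i + (((b s (ψ t x) i : ℝ) : UnitAddCircle) + ((b t x i : ℝ) : UnitAddCircle)) := by
      rw [← e1]
      abel
    exact add_left_cancel e2
  have h3 := int_const hw hz s 0
  simp only [zero_add, hb.zero, Pi.zero_apply, sub_self] at h3
  show b (s + t) x i = b s (ψ t x) i + b t x i
  linarith

/-- The mean drift is linear in time. -/
theorem IsDrift.mean [CompactSpace X] [MeasurableSpace X] [BorelSpace X]
    (hb : IsDrift ψ U b) (hψ : ∀ s t y, ψ (s + t) y = ψ s (ψ t y)) (μ : Measure X)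
    [IsFiniteMeasure μ] (hμ : ∀ t, MeasurePreserving (ψ t) μ μ) (t : ℝ) :
    ∫ x, b t x ∂μ = t • ∫ x, b 1 x ∂μ := by
  have hbt : ∀ t, Continuous (b t) := fun t =>
    hb.cont.comp (by fun_prop : Continuous fun x : X => (t, x))
  let L : ℝ →+ (Fin e → ℝ) := AddMonoidHom.mk' (fun t => ∫ x, b t x ∂μ) (by
    intro s t
    have h1 : ∫ x, b (s + t) x ∂μ = ∫ x, (b s (ψ t x) + b t x) ∂μ := by
      congr 1
      funext x
      exact hb.add hψ s t x
    have h2 : Integrable (b s) (Measure.map (ψ t) μ) := by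
      rw [(hμ t).map_eq]; exact integrable_of_cont (hbt s) μ
    have h3 : Integrable (fun x => b s (ψ t x)) μ :=
      (integrable_map_measure h2.aestronglyMeasurable (hμ t).measurable.aemeasurable).1 h2
    have h4 : ∫ x, b s (ψ t x) ∂μ = ∫ x, b s x ∂μ := by
      rw [← integral_map (hμ t).measurable.aemeasurable h2.aestronglyMeasurable, (hμ t).map_eq]
    rw [h1, integral_add h3 (integrable_of_cont (hbt t) μ), h4])
  have hL : Continuous L := by
    have := continuous_parametric_integral_of_continuous (μ := μ) (f := fun (t : ℝ) (x : X) => b t x)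
      hb.cont (isCompact_univ (X := X))
    simp only [Measure.restrict_univ] at this
    exact this
  have h5 := (L.toRealLinearMap hL).map_smul t 1
  simp only [smul_eq_mul, mul_one] at h5
  exact h5

end drift

section fam

variable {n : ℕ} {N : Type u} [TopologicalSpace N] [ChartedSpace (V n) N] [IsManifold (𝓡 n) ∞ N]

theorem flow_diff {ψ : ℝ → N → N} (hψ : IsFlow n N ψ) (r : ℕ∞) (s : ℝ) :
    ∃ Θ : DiffM n N r, ∀ y, Θ y = ψ s y := by
  have hr : (r : WithTop ℕ∞) ≤ ∞ := by exact_mod_cast le_top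
  have hj : ContMDiff (𝓘(ℝ, ℝ).prod (𝓡 n)) (𝓡 n) r (fun q : ℝ × N => ψ q.1 q.2) :=
    hψ.smooth.of_le hr
  have hsl : ∀ s : ℝ, ContMDiff (𝓡 n) (𝓡 n) r (ψ s) := by
    intro s
    have h1 : ContMDiff (𝓡 n) (𝓘(ℝ, ℝ).prod (𝓡 n)) r (fun y : N => (s, y)) :=
      contMDiff_const.prodMk contMDiff_id
    exact ContMDiff.comp (g := fun q : ℝ × N => ψ q.1 q.2) (f := fun y : N => (s, y)) hj h1
  have i1 : ∀ y, ψ (-s) (ψ s y) = y := fun y => by
    rw [← hψ.add, neg_add_cancel, hψ.zero]
  have i2 : ∀ y, ψ s (ψ (-s) y) = y := fun y => by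
    rw [← hψ.add, add_neg_cancel, hψ.zero]
  exact ⟨⟨⟨ψ s, ψ (-s), i1, i2⟩, hsl _, hsl _⟩, fun y => rfl⟩

theorem exists_family [CompactSpace N] [MeasurableSpace N] [BorelSpace N] (r : ℕ∞) (F : DiffM n N r)
    (μ : Measure N) [IsProbabilityMeasure μ] (hF : MeasurePreserving F μ μ) {e : ℕ}
    {U : N → Fin e → UnitAddCircle} {a : N → Fin e → ℝ} (hU : IsDisp F U a)
    {ψ : Fin e → ℝ → N → N} (hψ : ∀ i, IsFlow n N (ψ i)) (hμ : ∀ i t, MeasurePreserving (ψ i t) μ μ)
    {b : Fin e → ℝ → N → Fin e → ℝ} (hb : ∀ i, IsDrift (ψ i) U (b i)) :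
    ∃ (H : (Fin e → ℝ) → DiffM n N r) (D : (Fin e → ℝ) → N → Fin e → ℝ),
      IsFam n N r H ∧ H 0 = F ∧ (∀ t, MeasurePreserving (H t) μ μ) ∧
      Continuous (fun q : (Fin e → ℝ) × N => D q.1 q.2) ∧ D 0 = a ∧ (∀ t, IsDisp (H t) U (D t)) ∧
      ∀ t, ∫ x, D t x ∂μ = ∫ x, a x ∂μ + ∑ i, t i • ∫ x, b i 1 x ∂μ := by
  classical
  have hr : (r : WithTop ℕ∞) ≤ ∞ := by exact_mod_cast le_top
  have key : ∀ s : Finset (Fin e), ∃ (H : (Fin e → ℝ) → DiffM n N r)
      (D : (Fin e → ℝ) → N → Fin e → ℝ),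
      ContMDiff (𝓘(ℝ, Fin e → ℝ).prod (𝓡 n)) (𝓡 n) r (fun q : (Fin e → ℝ) × N => H q.1 q.2) ∧
      H 0 = F ∧ (∀ t, MeasurePreserving (H t) μ μ) ∧
      Continuous (fun q : (Fin e → ℝ) × N => D q.1 q.2) ∧ D 0 = a ∧ (∀ t, IsDisp (H t) U (D t)) ∧
      ∀ t, ∫ x, D t x ∂μ = ∫ x, a x ∂μ + ∑ i ∈ s, t i • ∫ x, b i 1 x ∂μ := by
    intro s
    induction s using Finset.induction_on with
    | empty =>
      refine ⟨fun _ => F, fun _ => a, ?_, rfl, fun _ => hF, ?_, rfl, fun _ => hU, ?_⟩
      · exact F.contMDiff.comp contMDiff_snd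
      · exact hU.conta.comp continuous_snd
      · intro t
        simp
    | insert j s hj ih =>
      obtain ⟨H, D, h1, h2, h3, h4, h5, h6, h7⟩ := ih
      choose Θ hΘ using fun t : ℝ => flow_diff (hψ j) r t
      have hH : ∀ (t : Fin e → ℝ) (y : N), ((H t).trans (Θ (t j))) y = ψ j (t j) (H t y) :=
        fun t y => hΘ (t j) (H t y)
      have hcH : Continuous fun q : (Fin e → ℝ) × N => H q.1 q.2 := h1.continuous
      refine ⟨fun t => (H t).trans (Θ (t j)), fun t x => D t x + b j (t j) (H t x),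
        ?_, ?_, ?_, ?_, ?_, ?_, ?_⟩
      · have e1 : (fun q : (Fin e → ℝ) × N => ((H q.1).trans (Θ (q.1 j))) q.2) =
            (fun p : ℝ × N => ψ j p.1 p.2) ∘ fun q : (Fin e → ℝ) × N => (q.1 j, H q.1 q.2) := by
          funext q
          exact hH q.1 q.2
        rw [e1]
        have e2 : ContMDiff (𝓘(ℝ, Fin e → ℝ).prod (𝓡 n)) 𝓘(ℝ, ℝ) r
            (fun q : (Fin e → ℝ) × N => q.1 j) := by
          have e3 : ContMDiff 𝓘(ℝ, Fin e → ℝ) 𝓘(ℝ, ℝ) r (fun t : Fin e → ℝ => t j) :=
            (contDiff_apply ℝ ℝ j).contMDiff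
          exact e3.comp contMDiff_fst
        exact ((hψ j).smooth.of_le hr).comp (e2.prodMk h1)
      · ext y
        rw [hH]
        show ψ j 0 (H 0 y) = F y
        rw [(hψ j).zero, h2]
      · intro t
        have e1 : (fun y => ((H t).trans (Θ (t j))) y) = ψ j (t j) ∘ H t := by
          funext y
          exact hH t y
        have e2 := (hμ j (t j)).comp (h3 t)
        rw [← e1] at e2
        exact e2
      · refine h4.add ?_
        exact (hb j).cont.comp (((continuous_apply j).comp continuous_fst).prodMk hcH)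
      · funext x
        show D 0 x + b j 0 (H 0 x) = a x
        rw [h5, (hb j).zero, add_zero]
      · intro t
        refine ⟨hU.contU, ?_, ?_⟩
        · refine (h6 t).conta.add ?_
          exact (hb j).cont.comp (by
            have : Continuous (H t) := (H t).continuous
            fun_prop : Continuous fun x : N => (t j, H t x))
        · intro x i
          rw [hH, (hb j).disp, (h6 t).disp]
          show U x i + ((D t x i : ℝ) : UnitAddCircle) + ((b j (t j) (H t x) i : ℝ) : UnitAddCircle) =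
            U x i + (((D t x i + b j (t j) (H t x) i : ℝ)) : UnitAddCircle)
          rw [AddCircle.coe_add, add_assoc]
      · intro t
        have hbt : Continuous (b j (t j)) :=
          (hb j).cont.comp (by fun_prop : Continuous fun x : N => (t j, x))
        have i1 : Integrable (fun x => D t x) μ := integrable_of_cont (h6 t).conta μ
        have i2 : Integrable (fun x => b j (t j) (H t x)) μ :=
          integrable_of_cont (hbt.comp (H t).continuous) μ
        rw [integral_add i1 i2, h7, integral_comp (h3 t) hbt,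
          (hb j).mean (hψ j).add μ (hμ j) (t j), Finset.sum_insert hj]
        abel
  obtain ⟨H, D, h1, h2, h3, h4, h5, h6, h7⟩ := key Finset.univ
  exact ⟨H, D, fun y => h1.contMDiffAt, h2, h3, h4, h5, h6, h7⟩

end fam

end Pool.Agent.H246.RS
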