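import Pool.Agent.H246.RS.Lim
import Pool.Agent.H246.RS.Fl

/-!
# Averages of invariant measures along a commuting flow
-/

set_option autoImplicit false
set_option linter.unusedSectionVars false

open Filter Set Topology MeasureTheory

universe u

namespace Pool.Agent.H246.RS

variable {X : Type u} [TopologicalSpace X] [CompactSpace X] [T2Space X]
  [SecondCountableTopology X] [MeasurableSpace X] [BorelSpace X]

/-- the uniform distribution on `[0, T]` -/
noncomputable def unif (T : ℝ) : Measure ℝ := ENNReal.ofReal T⁻¹ • volume.restrict (Icc 0 T)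

theorem unif_prob {T : ℝ} (hT : 0 < T) : IsProbabilityMeasure (unif T) := by
  constructor
  rw [unif, Measure.smul_apply, Measure.restrict_apply_univ, Real.volume_Icc, sub_zero, smul_eq_mul,
    ← ENNReal.ofReal_mul (by positivity), inv_mul_cancel₀ hT.ne', ENNReal.ofReal_one]

theorem integral_unif {T : ℝ} (hT : 0 < T) (g : ℝ → ℝ) :
    ∫ s, g s ∂(unif T) = T⁻¹ * ∫ s in (0 : ℝ)..T, g s := by
  rw [unif, integral_smul_measure, ENNReal.toReal_ofReal (by positivity), smul_eq_mul,
    intervalIntegral.integral_of_le hT.le, integral_Icc_eq_integral_Ioc]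

theorem exists_avg {e : ℕ} {ψ : ℝ → X → X} (hψ : Continuous fun q : ℝ × X => ψ q.1 q.2)
    (hadd : ∀ s t y, ψ (s + t) y = ψ s (ψ t y)) {G : X → X} (hG : Continuous G)
    (hcom : ∀ s x, ψ s (G x) = G (ψ s x)) (ν : Measure X) [IsProbabilityMeasure ν]
    (hν : MeasurePreserving G ν ν) {D : X → Fin e → ℝ} (hD : Continuous D)
    (hDψ : ∀ s, ∫ x, D (ψ s x) ∂ν = ∫ x, D x ∂ν) :
    ∃ ν' : Measure X, IsProbabilityMeasure ν' ∧ MeasurePreserving G ν' ν' ∧
      (∀ s, MeasurePreserving (ψ s) ν' ν') ∧ ∫ x, D x ∂ν' = ∫ x, D x ∂ν := by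
  classical
  have hψs : ∀ s, Continuous (ψ s) := fun s =>
    hψ.comp (by fun_prop : Continuous fun x : X => (s, x))
  let T : ℕ → ℝ := fun k => (k : ℝ) + 1
  have hT : ∀ k, 0 < T k := fun k => by positivity
  have hprob : ∀ k, IsProbabilityMeasure (unif (T k)) := fun k => unif_prob (hT k)
  let m : ℕ → Measure X := fun k => Measure.map (fun q : ℝ × X => ψ q.1 q.2) ((unif (T k)).prod ν)
  have hm : ∀ k, IsProbabilityMeasure (m k) := fun k =>
    Measure.isProbabilityMeasure_map hψ.measurable.aemeasurable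
  -- integrals
  have hint : ∀ (k : ℕ) (φ : X → ℝ), Continuous φ →
      ∫ x, φ x ∂(m k) = (T k)⁻¹ * ∫ s in (0 : ℝ)..(T k), ∫ x, φ (ψ s x) ∂ν := by
    intro k φ hφ
    have hb : ∃ C, ∀ x, ‖φ x‖ ≤ C := by
      obtain ⟨C, hC⟩ := (isCompact_range hφ.norm).bddAbove
      exact ⟨C, fun x => hC ⟨x, rfl⟩⟩
    obtain ⟨C, hC⟩ := hb
    have h1 : Integrable (fun q : ℝ × X => φ (ψ q.1 q.2)) ((unif (T k)).prod ν) := by
      refine Integrable.of_bound (C := C) (hφ.comp hψ).aestronglyMeasurable ?_
      exact Eventually.of_forall fun q => hC _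
    rw [← integral_unif (hT k), integral_map hψ.measurable.aemeasurable
      hφ.aestronglyMeasurable, integral_prod _ h1]
  have hinvG : ∀ k, MeasurePreserving G (m k) (m k) := by
    intro k
    refine ⟨hG.measurable, ?_⟩
    have h1 : MeasurePreserving (Prod.map (id : ℝ → ℝ) G) ((unif (T k)).prod ν)
        ((unif (T k)).prod ν) := (MeasurePreserving.id _).prod hν
    have h2 : G ∘ (fun q : ℝ × X => ψ q.1 q.2) =
        (fun q : ℝ × X => ψ q.1 q.2) ∘ (Prod.map (id : ℝ → ℝ) G) := by
      funext q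
      exact (hcom q.1 q.2).symm
    show Measure.map G (Measure.map _ _) = Measure.map _ _
    rw [Measure.map_map hG.measurable hψ.measurable, h2,
      ← Measure.map_map hψ.measurable h1.measurable, h1.map_eq]
  -- the limit
  let P : ℕ → ProbabilityMeasure X := fun k => ⟨m k, hm k⟩
  let l : Ultrafilter ℕ := Ultrafilter.of atTop
  have hl : (l : Filter ℕ) ≤ atTop := Ultrafilter.of_le _
  obtain ⟨P0, -, hP0⟩ := isCompact_univ.ultrafilter_le_nhds (l.map P) (by simp)
  have hP0' : Tendsto P l (𝓝 P0) := hP0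
  have hlim : ∀ φ : C(X, ℝ), Tendsto (fun k => ∫ x, φ x ∂(m k)) l (𝓝 (∫ x, φ x ∂(P0 : Measure X))) :=
    fun φ => (ProbabilityMeasure.tendsto_iff_forall_integral_tendsto.1 hP0')
      (BoundedContinuousFunction.mkOfCompact φ)
  have hintr : ∀ (φ : X → ℝ), Continuous φ → ∀ (m : Measure X) [IsFiniteMeasure m],
      Integrable φ m := fun φ hφ m _ =>
    (BoundedContinuousFunction.mkOfCompact ⟨φ, hφ⟩).integrable m
  have hpres : ∀ g : X → X, Continuous g →
      (∀ φ : C(X, ℝ), ∫ x, φ (g x) ∂(P0 : Measure X) = ∫ x, φ x ∂(P0 : Measure X)) →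
      MeasurePreserving g (P0 : Measure X) (P0 : Measure X) := by
    intro g hg h
    refine ⟨hg.measurable, ?_⟩
    have hfin : IsFiniteMeasure (Measure.map g (P0 : Measure X)) :=
      Measure.isFiniteMeasure_map _ _
    apply ext_of_forall_integral_eq_of_IsFiniteMeasure
    intro φ
    rw [integral_map hg.measurable.aemeasurable
      (hintr φ φ.continuous (Measure.map g (P0 : Measure X))).aestronglyMeasurable]
    exact h ⟨φ, φ.continuous⟩
  refine ⟨P0, inferInstance, hpres G hG ?_, fun u => hpres (ψ u) (hψs u) ?_, ?_⟩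
  · intro φ
    have h1 := hlim ⟨fun x => φ (G x), φ.continuous.comp hG⟩
    have h2 := hlim φ
    simp only [ContinuousMap.coe_mk] at h1
    have h3 : ∀ k, ∫ x, φ (G x) ∂(m k) = ∫ x, φ x ∂(m k) := by
      intro k
      conv_rhs => rw [← (hinvG k).map_eq]
      rw [integral_map hG.measurable.aemeasurable
        (hintr φ φ.continuous (Measure.map G (m k))).aestronglyMeasurable]
    simp only [h3] at h1
    exact tendsto_nhds_unique h1 h2
  · intro φ
    obtain ⟨C, hC⟩ := (isCompact_range φ.continuous.norm).bddAbove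
    have hC' : ∀ x, ‖φ x‖ ≤ C := fun x => hC ⟨x, rfl⟩
    let g : ℝ → ℝ := fun s => ∫ x, φ (ψ s x) ∂ν
    have hg : Continuous g := by
      have := continuous_parametric_integral_of_continuous (μ := ν)
        (f := fun (t : ℝ) (x : X) => φ (ψ t x)) (φ.continuous.comp hψ) (isCompact_univ (X := X))
      simp only [Measure.restrict_univ] at this
      exact this
    have hgb : ∀ s, ‖g s‖ ≤ C := by
      intro s
      have h4 : ‖∫ x, φ (ψ s x) ∂ν‖ ≤ C * ν.real univ := by
        apply norm_integral_le_of_norm_le_const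
        exact Eventually.of_forall fun x => hC' _
      rwa [probReal_univ, mul_one] at h4
    have h1 := hlim ⟨fun x => φ (ψ u x), φ.continuous.comp (hψs u)⟩
    have h2 := hlim φ
    simp only [ContinuousMap.coe_mk] at h1
    have h3 : ∀ k, |∫ x, φ (ψ u x) ∂(m k) - ∫ x, φ x ∂(m k)| ≤ (T k)⁻¹ * (2 * C * |u|) := by
      intro k
      have q1 := hint k (fun x => φ (ψ u x)) (φ.continuous.comp (hψs u))
      rw [q1, hint k _ φ.continuous, ← mul_sub, abs_mul,
        abs_of_pos (inv_pos.2 (hT k))]
      apply mul_le_mul_of_nonneg_left _ (inv_pos.2 (hT k)).le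
      have e1 : (fun s => ∫ x, φ (ψ u (ψ s x)) ∂ν) = fun s => g (s + u) := by
        funext s
        show _ = ∫ x, φ (ψ (s + u) x) ∂ν
        congr 1
        funext x
        rw [add_comm s u, hadd]
      have e2 : ∫ s in (0 : ℝ)..(T k), ∫ x, φ (ψ u (ψ s x)) ∂ν = ∫ s in u..(T k + u), g s := by
        have e3 := intervalIntegral.integral_comp_add_right (a := 0) (b := T k) g u
        rw [zero_add] at e3
        rw [← e3]
        congr 1
      have e4 : ∫ s in (0 : ℝ)..(T k), ∫ x, φ (ψ s x) ∂ν = ∫ s in (0 : ℝ)..(T k), g s := rfl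
      rw [e2, e4, intervalIntegral.integral_interval_sub_interval_comm (hg.intervalIntegrable _ _)
        (hg.intervalIntegrable _ _) (hg.intervalIntegrable _ _)]
      have b1 : ‖∫ s in u..0, g s‖ ≤ C * |0 - u| :=
        intervalIntegral.norm_integral_le_of_norm_le_const fun s _ => hgb s
      have b2 : ‖∫ s in (T k + u)..(T k), g s‖ ≤ C * |T k - (T k + u)| :=
        intervalIntegral.norm_integral_le_of_norm_le_const fun s _ => hgb s
      have b3 : |(0 : ℝ) - u| = |u| := by rw [zero_sub, abs_neg]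
      have b4 : |T k - (T k + u)| = |u| := by
        rw [show T k - (T k + u) = -u by ring, abs_neg]
      rw [b3] at b1
      rw [b4] at b2
      calc |(∫ s in u..0, g s) - ∫ s in (T k + u)..(T k), g s|
          ≤ |∫ s in u..0, g s| + |∫ s in (T k + u)..(T k), g s| := abs_sub _ _
        _ ≤ C * |u| + C * |u| := add_le_add b1 b2
        _ = 2 * C * |u| := by ring
    have h4 : Tendsto (fun k : ℕ => (T k)⁻¹ * (2 * C * |u|)) l (𝓝 0) := by
      have h5 : Tendsto (fun k : ℕ => (T k)⁻¹) atTop (𝓝 0) := by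
        have := tendsto_one_div_add_atTop_nhds_zero_nat (𝕜 := ℝ)
        refine this.congr fun k => ?_
        rw [one_div]
      have h6 := h5.mul_const (2 * C * |u|)
      rw [zero_mul] at h6
      exact h6.mono_left hl
    have h5 : Tendsto (fun k => ∫ x, φ (ψ u x) ∂(m k) - ∫ x, φ x ∂(m k)) l (𝓝 0) :=
      squeeze_zero_norm h3 h4
    have h6 := tendsto_nhds_unique (h1.sub h2) h5
    linarith
  · funext j
    have hcoord : ∀ (m : Measure X) [IsFiniteMeasure m] (c : X → Fin e → ℝ), Continuous c →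
        (∫ x, c x ∂m) j = ∫ x, c x j ∂m := by
      intro m _ c hc
      have := (ContinuousLinearMap.proj (R := ℝ) (φ := fun _ : Fin e => ℝ) j).integral_comp_comm
        (integrable_of_cont hc m)
      exact this.symm
    have h1 := hlim ⟨fun x => D x j, (continuous_apply j).comp hD⟩
    simp only [ContinuousMap.coe_mk] at h1
    have h3 : ∀ k, ∫ x, D x j ∂(m k) = (∫ x, D x ∂ν) j := by
      intro k
      have q1 := hint k (fun x => D x j) ((continuous_apply j).comp hD)
      rw [q1]
      have e1 : ∀ s, ∫ x, D (ψ s x) j ∂ν = (∫ x, D x ∂ν) j := by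
        intro s
        have := hcoord ν (fun x => D (ψ s x)) (hD.comp (hψs s))
        rw [← hDψ s]
        exact this.symm
      simp only [e1, intervalIntegral.integral_const, sub_zero, smul_eq_mul]
      rw [← mul_assoc, inv_mul_cancel₀ (hT k).ne', one_mul]
    simp only [h3] at h1
    rw [hcoord _ _ hD]
    exact (tendsto_nhds_unique tendsto_const_nhds h1).symm

end Pool.Agent.H246.RS
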