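import Pool.Agent.H246.RS.Conj
import Pool.Agent.H246.RS.Fl
import Pool.Graph.R_seed8.TH80.CLX.Fam

/-!
# Mean displacements in the interior of rotation sets
-/

set_option autoImplicit false
set_option linter.unusedSectionVars false

open scoped Manifold ContDiff Topology
open Filter Set Topology MeasureTheory

universe u

namespace Pool.Agent.H246.RS

open Pool.Agent.H718R2.G Pool.Agent.W564.SC Pool.Agent.TH290.CL Pool.Agent.TH80.OMS
open Pool.Agent.TH80.CLX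

/-- a countable family of convex sets and an affine isomorphism -/
theorem exists_interior {e : ℕ} {c : Fin e → (Fin e → ℝ)} (hc : LinearIndependent ℝ c)
    (c₀ : Fin e → ℝ) {κ : ℝ} (hκ : 0 < κ) {E : Set (Set (Fin e → ℝ))} (hE : E.Countable)
    (hconv : ∀ R ∈ E, Convex ℝ R) :
    ∃ t : Fin e → ℝ, ‖t‖ < κ ∧ ∀ R ∈ E, c₀ + ∑ i, t i • c i ∈ R → c₀ + ∑ i, t i • c i ∈ interior R := by
  classical
  let L : (Fin e → ℝ) →ₗ[ℝ] (Fin e → ℝ) := Fintype.linearCombination ℝ c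
  have hL : ∀ t, L t = ∑ i, t i • c i := fun t => Fintype.linearCombination_apply ℝ c t
  have hinj : Function.Injective L := by
    have := (LinearIndependent.fintypeLinearCombination_injective hc)
    exact this
  have hsurj : Function.Surjective L := LinearMap.injective_iff_surjective.1 hinj
  have hopen : IsOpenMap L := L.isOpenMap_of_finiteDimensional hsurj
  by_contra hcon
  push Not at hcon
  have h1 : (fun v => c₀ + v) '' (L '' Metric.ball 0 κ) ⊆ ⋃ R ∈ E, frontier R := by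
    rintro _ ⟨_, ⟨t, ht, rfl⟩, rfl⟩
    have ht' : ‖t‖ < κ := by simpa using ht
    obtain ⟨R, hR, hR1, hR2⟩ := hcon t ht'
    refine mem_iUnion₂.2 ⟨R, hR, ?_⟩
    show c₀ + L t ∈ frontier R
    rw [hL]
    exact ⟨subset_closure hR1, hR2⟩
  have h2 : volume (⋃ R ∈ E, frontier R) = 0 := by
    rw [measure_biUnion_null_iff hE]
    intro R hR
    exact (hconv R hR).addHaar_frontier volume
  have h3 : IsOpen ((fun v => c₀ + v) '' (L '' Metric.ball 0 κ)) := by
    have := (Homeomorph.addLeft c₀).isOpenMap _ (hopen _ (Metric.isOpen_ball (x := 0) (ε := κ)))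
    exact this
  have h4 : ((fun v => c₀ + v) '' (L '' Metric.ball 0 κ)).Nonempty :=
    ((Metric.nonempty_ball.2 hκ).image _).image _
  exact (h3.measure_pos volume h4).ne' (measure_mono_null h1 h2)

variable {n : ℕ} {N : Type u} [TopologicalSpace N] [ChartedSpace (V n) N] [IsManifold (𝓡 n) ∞ N]
  [T2Space N] [CompactSpace N] [MeasurableSpace N] [BorelSpace N]

/-- all diffeomorphisms near an `Ω`-stable one have countably many rotation sets -/
theorem countable_near (r : ℕ∞) (F : DiffM n N r) (hF : OmegaStable n N r F) :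
    ∃ 𝒰 : Set (DiffM n N r), IsOpen[strongTop n N r] 𝒰 ∧ F ∈ 𝒰 ∧ ∀ e : ℕ,
      {R : Set (Fin e → ℝ) | ∃ G ∈ 𝒰, ∃ (U : N → Fin e → UnitAddCircle) (a : N → Fin e → ℝ),
        IsDisp G U a ∧ R = Rot G a}.Countable := by
  have : SecondCountableTopology N := ChartedSpace.secondCountable_of_sigmaCompact (V n) N
  obtain ⟨𝒰, hU, hFU, h⟩ := hF
  refine ⟨𝒰, hU, hFU, fun e => (countable_rot_conj F.continuous e).mono ?_⟩
  rintro R ⟨G, hG, U, a, hUa, rfl⟩
  exact ⟨G, U, a, G.continuous, h G hG, hUa, rfl⟩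

theorem exists_mean (r : ℕ∞) (hr : 1 ≤ r) (F : DiffM n N r) (hF : OmegaStable n N r F)
    (μ : Measure N) [IsProbabilityMeasure μ] (hFμ : MeasurePreserving F μ μ) {e : ℕ}
    {U : N → Fin e → UnitAddCircle} {a : N → Fin e → ℝ} (hU : IsDisp F U a)
    {ψ : Fin e → ℝ → N → N} (hψ : ∀ i, IsFlow n N (ψ i)) (hμ : ∀ i t, MeasurePreserving (ψ i t) μ μ)
    {b : Fin e → ℝ → N → Fin e → ℝ} (hb : ∀ i, IsDrift (ψ i) U (b i))
    (hli : LinearIndependent ℝ fun i => ∫ x, b i 1 x ∂μ)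
    (𝒱 : Set (DiffM n N r)) (h𝒱 : IsOpen[strongTop n N r] 𝒱) (hF𝒱 : F ∈ 𝒱) :
    ∃ G ∈ 𝒱, MeasurePreserving G μ μ ∧ ∃ a' : N → Fin e → ℝ, IsDisp G U a' ∧
      ∫ x, a' x ∂μ ∈ interior (Rot G a') := by
  obtain ⟨𝒰, h𝒰, hF𝒰, hcount⟩ := countable_near r F hF
  obtain ⟨H, D, h1, h2, h3, h4, h5, h6, h7⟩ := exists_family r F μ hFμ hU hψ hμ hb
  have hne : Nonempty N := by
    by_contra hemp
    rw [not_nonempty_iff] at hemp
    have := measure_univ (μ := μ)
    rw [Set.univ_eq_empty_iff.2 hemp, measure_empty] at this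
    exact zero_ne_one this
  obtain ⟨z⟩ := hne
  obtain ⟨κ₁, hκ₁, hm1⟩ := fam_mem r hr H h1 z 𝒱 h𝒱 (by rw [h2]; exact hF𝒱)
  obtain ⟨κ₂, hκ₂, hm2⟩ := fam_mem r hr H h1 z 𝒰 h𝒰 (by rw [h2]; exact hF𝒰)
  obtain ⟨t, ht, hint⟩ := exists_interior hli (∫ x, a x ∂μ) (lt_min hκ₁ hκ₂) (hcount e) (by
    rintro R ⟨G, hG, U', a', hUa, rfl⟩
    exact rot_convex hUa.conta)
  refine ⟨H t, hm1 t (ht.trans_le (min_le_left _ _)), h3 t, D t, h6 t, ?_⟩
  rw [h7 t]
  refine hint _ ⟨H t, hm2 t (ht.trans_le (min_le_right _ _)), U, D t, h6 t, rfl⟩ ?_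
  exact ⟨μ, inferInstance, h3 t, (h7 t).symm⟩

end Pool.Agent.H246.RS
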