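import Pool.Agent.H246.RS.Avg
import Pool.Agent.H246.RS.Mean

/-!
# Rotation sets of an `Ω`-stable map composed with a commuting flow
-/

set_option autoImplicit false
set_option linter.unusedSectionVars false

open scoped Manifold ContDiff Topology
open Filter Set Topology MeasureTheory

universe u

namespace Pool.Agent.H246.RS

section cocycle

variable {X : Type u} [TopologicalSpace X]

/-- the cocycle relation for a map which commutes with the flow -/
theorem disp_flow {e : ℕ} {ψ : ℝ → X → X} (hψ : Continuous fun q : ℝ × X => ψ q.1 q.2)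
    (h0 : ∀ y, ψ 0 y = y) {G : X → X}
    (hcom : ∀ s x, ψ s (G x) = G (ψ s x)) {U : X → Fin e → UnitAddCircle} {D : X → Fin e → ℝ}
    (hD : IsDisp G U D) {b : ℝ → X → Fin e → ℝ} (hb : IsDrift ψ U b) (s : ℝ) (x : X) :
    D (ψ s x) = D x + (b s (G x) - b s x) := by
  funext i
  have hw : Continuous fun s : ℝ => D (ψ s x) i - (D x i + (b s (G x) i - b s x i)) := by
    have h1 : Continuous fun s : ℝ => D (ψ s x) i :=
      (continuous_apply i).comp (hD.conta.comp (hψ.comp (by fun_prop : Continuous fun s : ℝ => (s, x))))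
    have h2 : Continuous fun s : ℝ => b s (G x) i :=
      (continuous_apply i).comp (hb.cont.comp (by fun_prop : Continuous fun s : ℝ => (s, G x)))
    have h3 : Continuous fun s : ℝ => b s x i :=
      (continuous_apply i).comp (hb.cont.comp (by fun_prop : Continuous fun s : ℝ => (s, x)))
    exact h1.sub (continuous_const.add (h2.sub h3))
  have hz : ∀ s : ℝ, ((D (ψ s x) i - (D x i + (b s (G x) i - b s x i)) : ℝ) : UnitAddCircle) = 0 := by
    intro s
    have e1 := hD.disp (ψ s x) i
    rw [← hcom, hb.disp, hb.disp, hD.disp] at e1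
    rw [AddCircle.coe_sub, AddCircle.coe_add, AddCircle.coe_sub]
    have e2 : ((D (ψ s x) i : ℝ) : UnitAddCircle) = (U x i + ((b s x i : ℝ) : UnitAddCircle) +
        ((D (ψ s x) i : ℝ) : UnitAddCircle)) - (U x i + ((b s x i : ℝ) : UnitAddCircle)) := by abel
    rw [e2, ← e1]
    abel
  have h3 := int_const hw hz s 0
  simp only [h0, hb.zero, Pi.zero_apply, sub_self, add_zero] at h3
  show D (ψ s x) i = D x i + (b s (G x) i - b s x i)
  linarith

variable [CompactSpace X] [T2Space X] [SecondCountableTopology X] [MeasurableSpace X] [BorelSpace X]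

/-- The rotation set of `ψ_t ∘ F`, if `F` commutes with the flow `ψ`. -/
theorem rot_flow {e : ℕ} {ψ : ℝ → X → X} (hψ : Continuous fun q : ℝ × X => ψ q.1 q.2)
    (h0 : ∀ y, ψ 0 y = y) (hadd : ∀ s t y, ψ (s + t) y = ψ s (ψ t y)) {F : X → X}
    (hF : Continuous F) (hcom : ∀ s x, ψ s (F x) = F (ψ s x)) {U : X → Fin e → UnitAddCircle}
    {a : X → Fin e → ℝ} (ha : IsDisp F U a) {b : ℝ → X → Fin e → ℝ} (hb : IsDrift ψ U b) (t : ℝ) :
    Rot (fun x => ψ t (F x)) (fun x => a x + b t (F x)) =
      {v | ∃ ν : Measure X, IsProbabilityMeasure ν ∧ MeasurePreserving F ν ν ∧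
        (∀ s, MeasurePreserving (ψ s) ν ν) ∧ v = ∫ x, a x ∂ν + t • ∫ x, b 1 x ∂ν} := by
  have hψs : ∀ s, Continuous (ψ s) := fun s =>
    hψ.comp (by fun_prop : Continuous fun x : X => (s, x))
  have hbs : ∀ s, Continuous (b s) := fun s =>
    hb.cont.comp (by fun_prop : Continuous fun x : X => (s, x))
  set G : X → X := fun x => ψ t (F x) with hGd
  set D : X → Fin e → ℝ := fun x => a x + b t (F x) with hDd
  have hG : Continuous G := (hψs t).comp hF
  have hDG : IsDisp G U D := by
    refine ⟨ha.contU, ha.conta.add ((hbs t).comp hF), fun x i => ?_⟩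
    show U (ψ t (F x)) i = U x i + (((a x i + b t (F x) i : ℝ)) : UnitAddCircle)
    rw [hb.disp, ha.disp, AddCircle.coe_add, add_assoc]
  have hcomG : ∀ s x, ψ s (G x) = G (ψ s x) := by
    intro s x
    show ψ s (ψ t (F x)) = ψ t (F (ψ s x))
    rw [← hadd, add_comm, hadd, hcom]
  have hval : ∀ ν : Measure X, IsProbabilityMeasure ν → MeasurePreserving F ν ν →
      (∀ s, MeasurePreserving (ψ s) ν ν) → ∫ x, D x ∂ν = ∫ x, a x ∂ν + t • ∫ x, b 1 x ∂ν := by
    intro ν hν1 hν hνψ
    have i1 : Integrable (fun x => b t (F x)) ν := integrable_of_cont ((hbs t).comp hF) ν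
    rw [← hb.mean hadd ν hνψ t, ← integral_comp hν (hbs t),
      ← integral_add (integrable_of_cont ha.conta ν) i1]
  apply Subset.antisymm
  · rintro v ⟨ν, hν1, hν, rfl⟩
    have hDψ : ∀ s, ∫ x, D (ψ s x) ∂ν = ∫ x, D x ∂ν := by
      intro s
      have e1 : ∫ x, D (ψ s x) ∂ν = ∫ x, (D x + (b s (G x) - b s x)) ∂ν := by
        congr 1
        funext x
        exact disp_flow hψ h0 hcomG hDG hb s x
      have i1 : Integrable D ν := integrable_of_cont hDG.conta ν
      have i2 : Integrable (fun x => b s (G x)) ν := integrable_of_cont ((hbs s).comp hG) ν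
      have i3 : Integrable (b s) ν := integrable_of_cont (hbs s) ν
      have i4 : Integrable (fun x => b s (G x) - b s x) ν := i2.sub i3
      rw [e1, integral_add i1 i4, integral_sub i2 i3, integral_comp hν (hbs s), sub_self, add_zero]
    obtain ⟨ν', h1, h2, h3, h4⟩ := exists_avg hψ hadd hG hcomG ν hν hDG.conta hDψ
    have h5 : MeasurePreserving F ν' ν' := by
      have h6 := (h3 (-t)).comp h2
      have h7 : ψ (-t) ∘ G = F := by
        funext x
        show ψ (-t) (ψ t (F x)) = F x
        rw [← hadd, neg_add_cancel, h0]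
      rwa [h7] at h6
    refine ⟨ν', h1, h5, h3, ?_⟩
    rw [← h4]
    exact hval ν' h1 h5 h3
  · rintro v ⟨ν, hν1, hν, hνψ, rfl⟩
    refine ⟨ν, hν1, ?_, (hval ν hν1 hν hνψ).symm⟩
    exact (hνψ t).comp hν

end cocycle

/-- A continuous function on a ball of the line with countable range is constant. -/
theorem const_of_countable {M : ℝ → ℝ} (hM : Continuous M) {κ : ℝ}
    (hc : (M '' Metric.ball (0 : ℝ) κ).Countable) {t : ℝ} (ht : |t| < κ) : M t = M 0 := by
  have hκ : 0 < κ := (abs_nonneg t).trans_lt ht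
  have hpre : IsPreconnected (M '' Metric.ball (0 : ℝ) κ) :=
    ((convex_ball (0 : ℝ) κ).isPreconnected).image M hM.continuousOn
  have h1 : M t ∈ M '' Metric.ball (0 : ℝ) κ := ⟨t, by simpa using ht, rfl⟩
  have h2 : M 0 ∈ M '' Metric.ball (0 : ℝ) κ := ⟨0, by simpa using hκ, rfl⟩
  have key : ∀ x ∈ M '' Metric.ball (0 : ℝ) κ, ∀ y ∈ M '' Metric.ball (0 : ℝ) κ, ¬ x < y := by
    intro x hx y hy hxy
    have h3 : Icc x y ⊆ M '' Metric.ball (0 : ℝ) κ := hpre.ordConnected.out hx hy
    have h4 : volume (Icc x y) = 0 := (hc.mono h3).measure_zero volume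
    rw [Real.volume_Icc, ENNReal.ofReal_eq_zero] at h4
    linarith
  exact le_antisymm (not_lt.1 (key _ h2 _ h1)) (not_lt.1 (key _ h1 _ h2))

/-- A family of compact convex sets `{ρ + t c : (ρ, c) ∈ S}` with countably many members is
constant. -/
theorem moving_const {e : ℕ} {S : Set ((Fin e → ℝ) × (Fin e → ℝ))} {B : ℝ}
    (hB : ∀ p ∈ S, ‖p.1‖ ≤ B ∧ ‖p.2‖ ≤ B) {κ : ℝ} {E : Set (Set (Fin e → ℝ))} (hE : E.Countable)
    (hR : ∀ t : ℝ, |t| < κ → (fun p : (Fin e → ℝ) × (Fin e → ℝ) => p.1 + t • p.2) '' S ∈ E)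
    (hconv : ∀ t : ℝ, |t| < κ → Convex ℝ ((fun p : (Fin e → ℝ) × (Fin e → ℝ) => p.1 + t • p.2) '' S))
    (hclosed : ∀ t : ℝ, |t| < κ →
      IsClosed ((fun p : (Fin e → ℝ) × (Fin e → ℝ) => p.1 + t • p.2) '' S))
    {t : ℝ} (ht : |t| < κ) :
    (fun p : (Fin e → ℝ) × (Fin e → ℝ) => p.1 + t • p.2) '' S =
      (fun p : (Fin e → ℝ) × (Fin e → ℝ) => p.1 + (0 : ℝ) • p.2) '' S := by
  rcases S.eq_empty_or_nonempty with hS | hS
  · rw [hS, image_empty, image_empty]
  have hκ : 0 < κ := (abs_nonneg t).trans_lt ht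
  have hB0 : 0 ≤ B := by
    obtain ⟨p, hp⟩ := hS
    exact (norm_nonneg _).trans (hB p hp).1
  set R : ℝ → Set (Fin e → ℝ) := fun t => (fun p : (Fin e → ℝ) × (Fin e → ℝ) => p.1 + t • p.2) '' S
    with hRd
  -- support functions
  have key : ∀ f : StrongDual ℝ (Fin e → ℝ), ∀ t : ℝ, |t| < κ →
      sSup (f '' R t) = sSup (f '' R 0) := by
    intro f t ht
    have hbdd : ∀ t, BddAbove (f '' R t) := by
      intro t
      refine ⟨‖f‖ * (B + |t| * B), ?_⟩
      rintro _ ⟨_, ⟨p, hp, rfl⟩, rfl⟩
      have h1 : ‖p.1 + t • p.2‖ ≤ B + |t| * B := by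
        refine (norm_add_le _ _).trans ?_
        rw [norm_smul, Real.norm_eq_abs]
        have := hB p hp
        gcongr
        · exact this.1
        · exact this.2
      exact (le_abs_self _).trans ((f.le_opNorm _).trans (by gcongr))
    have hne : ∀ t, (f '' R t).Nonempty := fun t => (hS.image _).image _
    have hle : ∀ s t, sSup (f '' R t) ≤ sSup (f '' R s) + ‖f‖ * B * |t - s| := by
      intro s t
      apply csSup_le (hne t)
      rintro _ ⟨_, ⟨p, hp, rfl⟩, rfl⟩
      have h1 : f (p.1 + s • p.2) ≤ sSup (f '' R s) := le_csSup (hbdd s) ⟨_, ⟨p, hp, rfl⟩, rfl⟩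
      have h2 : f (p.1 + t • p.2) = f (p.1 + s • p.2) + (t - s) * f p.2 := by
        rw [map_add, map_add, map_smul, map_smul, smul_eq_mul, smul_eq_mul]; ring
      have h3 : (t - s) * f p.2 ≤ ‖f‖ * B * |t - s| := by
        calc (t - s) * f p.2 ≤ |(t - s) * f p.2| := le_abs_self _
          _ = |t - s| * ‖f p.2‖ := by rw [abs_mul, Real.norm_eq_abs]
          _ ≤ |t - s| * (‖f‖ * B) := by
              gcongr
              exact (f.le_opNorm _).trans (by
                gcongr
                exact (hB p hp).2)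
          _ = ‖f‖ * B * |t - s| := by ring
      show f (p.1 + t • p.2) ≤ _
      rw [h2]
      linarith
    have hlip : LipschitzWith (Real.toNNReal (‖f‖ * B)) fun t => sSup (f '' R t) := by
      apply LipschitzWith.of_dist_le_mul
      intro x y
      rw [Real.dist_eq, Real.dist_eq, Real.coe_toNNReal _ (by positivity), abs_le]
      have h1 := hle x y
      have h2 := hle y x
      rw [abs_sub_comm] at h1
      constructor <;> linarith
    refine const_of_countable hlip.continuous ?_ ht
    refine (hE.image fun Q => sSup (f '' Q)).mono ?_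
    rintro _ ⟨s, hs, rfl⟩
    exact ⟨R s, hR s (by simpa using hs), rfl⟩
  have hsub : ∀ s t : ℝ, |s| < κ → |t| < κ → R s ⊆ R t := by
    intro s t hs ht v hv
    by_contra hnot
    obtain ⟨f, u, hf1, hf2⟩ := geometric_hahn_banach_closed_point (hconv t ht) (hclosed t ht) hnot
    have h1 : sSup (f '' R t) ≤ u := by
      apply csSup_le ((hS.image _).image _)
      rintro _ ⟨w, hw, rfl⟩
      exact (hf1 w hw).le
    have h2 : f v ≤ sSup (f '' R s) := by
      refine le_csSup ?_ ⟨v, hv, rfl⟩
      refine ⟨‖f‖ * (B + |s| * B), ?_⟩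
      rintro _ ⟨_, ⟨p, hp, rfl⟩, rfl⟩
      have h1 : ‖p.1 + s • p.2‖ ≤ B + |s| * B := by
        refine (norm_add_le _ _).trans ?_
        rw [norm_smul, Real.norm_eq_abs]
        have := hB p hp
        gcongr
        · exact this.1
        · exact this.2
      exact (le_abs_self _).trans ((f.le_opNorm _).trans (by gcongr))
    rw [key f s hs, ← key f t ht] at h2
    linarith
  exact Subset.antisymm (hsub t 0 ht (by simpa using hκ)) (hsub 0 t (by simpa using hκ) ht)

end Pool.Agent.H246.RS
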