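import Pool.Agent.H246.RS.Com

/-!
# `Ω`-stable maps commuting with a flow: rotation sets
-/

set_option autoImplicit false
set_option linter.unusedSectionVars false

open scoped Manifold ContDiff Topology
open Filter Set Topology MeasureTheory

universe u

namespace Pool.Agent.H246.RS

open Pool.Agent.H718R2.G Pool.Agent.W564.SC Pool.Agent.TH290.CL Pool.Agent.TH80.OMS
open Pool.Agent.TH80.CLX

variable {n : ℕ} {N : Type u} [TopologicalSpace N] [ChartedSpace (V n) N] [IsManifold (𝓡 n) ∞ N]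
  [T2Space N] [CompactSpace N] [MeasurableSpace N] [BorelSpace N]

theorem flow_family {ψ : ℝ → N → N} (hψ : IsFlow n N ψ) (r : ℕ∞) (F : DiffM n N r) :
    ∃ H : ℝ → DiffM n N r, IsFam n N r H ∧ (∀ s y, H s y = ψ s (F y)) ∧ H 0 = F := by
  have hr : (r : WithTop ℕ∞) ≤ ∞ := by exact_mod_cast le_top
  choose Θ hΘ using fun t : ℝ => flow_diff hψ r t
  refine ⟨fun t => F.trans (Θ t), ?_, fun s y => hΘ s (F y), ?_⟩
  · have e : (fun q : ℝ × N => (F.trans (Θ q.1)) q.2) = fun q : ℝ × N => ψ q.1 (F q.2) := by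
      funext q
      exact hΘ q.1 (F q.2)
    intro y
    rw [e]
    have h1 : ContMDiff (𝓘(ℝ, ℝ).prod (𝓡 n)) (𝓘(ℝ, ℝ).prod (𝓡 n)) r
        (fun q : ℝ × N => (q.1, F q.2)) :=
      contMDiff_fst.prodMk (F.contMDiff_toFun.comp contMDiff_snd)
    exact (ContMDiff.comp (g := fun q : ℝ × N => ψ q.1 q.2)
      (f := fun q : ℝ × N => (q.1, F q.2)) (hψ.smooth.of_le hr) h1).contMDiffAt
  · ext y
    show Θ 0 (F y) = F y
    rw [hΘ, hψ.zero]

/-- `ψ` is a continuous flow on `N` which commutes with the diffeomorphism `F`, the maps `ψ_t ∘ F` are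
`C^r` diffeomorphisms for small `t`, and they tend to `F` in `Diff^r(N)` for `t → 0`. -/
structure CommFlow (n : ℕ) (N : Type u) [TopologicalSpace N] [ChartedSpace (V n) N] (r : ℕ∞)
    (F : DiffM n N r) (ψ : ℝ → N → N) : Prop where
  cont : Continuous fun q : ℝ × N => ψ q.1 q.2
  zero : ∀ y, ψ 0 y = y
  add : ∀ s t y, ψ (s + t) y = ψ s (ψ t y)
  com : ∀ s x, ψ s (F x) = F (ψ s x)
  tend : ∀ 𝒰 : Set (DiffM n N r), IsOpen[strongTop n N r] 𝒰 → F ∈ 𝒰 →
    ∀ᶠ t in 𝓝 (0 : ℝ), ∃ G ∈ 𝒰, ∀ x, G x = ψ t (F x)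

/-- smooth flows which commute with `F` are of this kind -/
theorem commFlow_of_smooth (r : ℕ∞) (hr : 1 ≤ r) (F : DiffM n N r) {ψ : ℝ → N → N}
    (hψ : Pool.Agent.TH290.CL.IsFlow n N ψ) (hcom : ∀ s x, ψ s (F x) = F (ψ s x)) :
    CommFlow n N r F ψ := by
  refine ⟨hψ.smooth.continuous, hψ.zero, hψ.add, hcom, fun 𝒰 h𝒰 hF𝒰 => ?_⟩
  rcases isEmpty_or_nonempty N with hemp | ⟨⟨z⟩⟩
  · exact Eventually.of_forall fun t => ⟨F, hF𝒰, fun x => (hemp.false x).elim⟩
  obtain ⟨H, hfam, hH, hH0⟩ := flow_family hψ r F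
  obtain ⟨κ, hκ, hm⟩ := fam_mem r hr H hfam z 𝒰 h𝒰 (by rw [hH0]; exact hF𝒰)
  filter_upwards [Metric.ball_mem_nhds (0 : ℝ) hκ] with t ht
  exact ⟨H t, hm t (by simpa using ht), hH t⟩

/-- Composing an `Ω`-stable diffeomorphism with a commuting flow does not change the rotation
sets. -/
theorem commuting (r : ℕ∞) (F : DiffM n N r) (hF : OmegaStable n N r F)
    {ψ : ℝ → N → N} (hψ : CommFlow n N r F ψ) :
    ∃ ε : ℝ, 0 < ε ∧ ∀ (e : ℕ) (U : N → Fin e → UnitAddCircle) (a : N → Fin e → ℝ)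
      (b : ℝ → N → Fin e → ℝ), IsDisp F U a → IsDrift ψ U b → ∀ t : ℝ, |t| < ε →
        Rot (fun x => ψ t (F x)) (fun x => a x + b t (F x)) = Rot F a ∧
        ∀ ν : Measure N, IsProbabilityMeasure ν → MeasurePreserving F ν ν →
          (∀ s, MeasurePreserving (ψ s) ν ν) → ∫ x, a x ∂ν + t • ∫ x, b 1 x ∂ν ∈ Rot F a := by
  have : SecondCountableTopology N := ChartedSpace.secondCountable_of_sigmaCompact (V n) N
  have hcom := hψ.com
  rcases isEmpty_or_nonempty N with hemp | ⟨⟨z⟩⟩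
  · refine ⟨1, one_pos, fun e U a b ha hb t ht => ?_⟩
    have hno : ∀ ν : Measure N, ¬ IsProbabilityMeasure ν := by
      intro ν hν
      have := measure_univ (μ := ν)
      rw [Set.univ_eq_empty_iff.2 hemp, measure_empty] at this
      exact zero_ne_one this
    refine ⟨?_, fun ν hν => absurd hν (hno ν)⟩
    ext v
    constructor
    · rintro ⟨ν, hν, -⟩
      exact absurd hν (hno ν)
    · rintro ⟨ν, hν, -⟩
      exact absurd hν (hno ν)
  obtain ⟨𝒰, h1, h2, h3⟩ := countable_near r F hF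
  obtain ⟨κ, hκ, hm'⟩ := Metric.eventually_nhds_iff.1 (hψ.tend 𝒰 h1 h2)
  have hm : ∀ t : ℝ, |t| < κ → ∃ G ∈ 𝒰, ∀ x, G x = ψ t (F x) := fun t ht =>
    hm' (by rwa [Real.dist_eq, sub_zero])
  have hψc : Continuous fun q : ℝ × N => ψ q.1 q.2 := hψ.cont
  refine ⟨κ, hκ, fun e U a b ha hb t ht => ?_⟩
  have hrf := fun t => rot_flow hψc hψ.zero hψ.add F.continuous hcom ha hb t
  have hψs : ∀ s, Continuous (ψ s) := fun s =>
    hψc.comp (by fun_prop : Continuous fun x : N => (s, x))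
  have hbs : ∀ s, Continuous (b s) := fun s =>
    hb.cont.comp (by fun_prop : Continuous fun x : N => (s, x))
  have hcont : ∀ t, Continuous fun x => a x + b t (F x) := fun t =>
    ha.conta.add ((hbs t).comp F.continuous)
  let S : Set ((Fin e → ℝ) × (Fin e → ℝ)) := {p | ∃ ν : Measure N, IsProbabilityMeasure ν ∧
    MeasurePreserving F ν ν ∧ (∀ s, MeasurePreserving (ψ s) ν ν) ∧
      p = (∫ x, a x ∂ν, ∫ x, b 1 x ∂ν)}
  have hS : ∀ t : ℝ, (fun p : (Fin e → ℝ) × (Fin e → ℝ) => p.1 + t • p.2) '' S =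
      Rot (fun x => ψ t (F x)) (fun x => a x + b t (F x)) := by
    intro t
    rw [hrf t]
    ext v
    constructor
    · rintro ⟨_, ⟨ν, n1, n2, n3, rfl⟩, rfl⟩
      exact ⟨ν, n1, n2, n3, rfl⟩
    · rintro ⟨ν, n1, n2, n3, rfl⟩
      exact ⟨_, ⟨ν, n1, n2, n3, rfl⟩, rfl⟩
  have hdisp : ∀ t, IsDisp (fun x => ψ t (F x)) U (fun x => a x + b t (F x)) := by
    intro t
    refine ⟨ha.contU, hcont t, fun x i => ?_⟩
    show U (ψ t (F x)) i = U x i + (((a x i + b t (F x) i : ℝ)) : UnitAddCircle)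
    rw [hb.disp, ha.disp, AddCircle.coe_add, add_assoc]
  have hbd : ∃ B : ℝ, ∀ p ∈ S, ‖p.1‖ ≤ B ∧ ‖p.2‖ ≤ B := by
    obtain ⟨B1, hB1⟩ := (isCompact_range ha.conta.norm).bddAbove
    obtain ⟨B2, hB2⟩ := (isCompact_range (hbs 1).norm).bddAbove
    refine ⟨max B1 B2, ?_⟩
    rintro _ ⟨ν, n1, n2, n3, rfl⟩
    constructor
    · refine le_trans ?_ (le_max_left _ _)
      have h4 : ‖∫ x, a x ∂ν‖ ≤ B1 * ν.real univ := by
        apply norm_integral_le_of_norm_le_const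
        exact Eventually.of_forall fun x => hB1 ⟨x, rfl⟩
      rwa [probReal_univ, mul_one] at h4
    · refine le_trans ?_ (le_max_right _ _)
      have h4 : ‖∫ x, b 1 x ∂ν‖ ≤ B2 * ν.real univ := by
        apply norm_integral_le_of_norm_le_const
        exact Eventually.of_forall fun x => hB2 ⟨x, rfl⟩
      rwa [probReal_univ, mul_one] at h4
  obtain ⟨B, hB⟩ := hbd
  have hmain := moving_const hB (h3 e) (fun t ht => by
      rw [hS t]
      obtain ⟨G, hG, hGx⟩ := hm t ht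
      have hGe : (⇑G : N → N) = fun x => ψ t (F x) := funext hGx
      refine ⟨G, hG, U, fun x => a x + b t (F x), ?_, ?_⟩
      · rw [hGe]
        exact hdisp t
      · rw [hGe])
    (fun t _ => by rw [hS t]; exact rot_convex (hcont t))
    (fun t _ => by rw [hS t]; exact rot_closed ((hψs t).comp F.continuous) (hcont t)) ht
  have h0 : Rot (fun x => ψ 0 (F x)) (fun x => a x + b 0 (F x)) = Rot F a := by
    have e1 : (fun x => ψ 0 (F x)) = fun x => F x := by
      funext x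
      exact hψ.zero _
    have e2 : (fun x => a x + b 0 (F x)) = a := by
      funext x
      rw [hb.zero, add_zero]
    rw [e1, e2]
  rw [hS t, hS 0, h0] at hmain
  refine ⟨hmain, fun ν n1 n2 n3 => ?_⟩
  rw [← hmain, hrf t]
  exact ⟨ν, n1, n2, n3, rfl⟩

/-- `Ω`-stability is an open condition -/
theorem stable_near (r : ℕ∞) (F : DiffM n N r) (hF : OmegaStable n N r F) :
    ∃ 𝒰 : Set (DiffM n N r), IsOpen[strongTop n N r] 𝒰 ∧ F ∈ 𝒰 ∧
      ∀ G ∈ 𝒰, OmegaStable n N r G := by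
  obtain ⟨𝒰, h1, h2, h3⟩ := hF
  refine ⟨𝒰, h1, h2, fun G hG => ⟨𝒰, h1, hG, fun G' hG' => ?_⟩⟩
  obtain ⟨h, hh⟩ := h3 G hG
  obtain ⟨h', hh'⟩ := h3 G' hG'
  refine ⟨h.symm.trans h', fun x y hxy => ?_⟩
  exact hh' _ _ (conj_symm F.continuous h hh x y hxy)

/-- All asymptotic cycles of a flow with an `Ω`-stable time-one map vanish. -/
theorem time_one (r : ℕ∞) (F : DiffM n N r) (hF : OmegaStable n N r F)
    {ψ : ℝ → N → N} (hψ : CommFlow n N r F ψ) (h1 : ∀ x, F x = ψ 1 x) (e : ℕ)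
    (U : N → Fin e → UnitAddCircle) (b : ℝ → N → Fin e → ℝ) (hU : Continuous U)
    (hb : IsDrift ψ U b) (ν : Measure N) [IsProbabilityMeasure ν] (hν : MeasurePreserving F ν ν) :
    ∫ x, b 1 x ∂ν = 0 := by
  have : SecondCountableTopology N := ChartedSpace.secondCountable_of_sigmaCompact (V n) N
  have hcom := hψ.com
  have hψc : Continuous fun q : ℝ × N => ψ q.1 q.2 := hψ.cont
  have hbs : ∀ s, Continuous (b s) := fun s =>
    hb.cont.comp (by fun_prop : Continuous fun x : N => (s, x))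
  have ha : IsDisp F U (b 1) := ⟨hU, hbs 1, fun x i => by rw [h1]; exact hb.disp 1 x i⟩
  obtain ⟨ε, hε, h⟩ := commuting r F hF hψ
  have hcomp : IsCompact (Rot F (b 1)) := rot_compact F.continuous (hbs 1)
  have hne : (Rot F (b 1)).Nonempty := ⟨_, ν, inferInstance, hν, rfl⟩
  obtain ⟨v, hv, hmax⟩ := hcomp.exists_isMaxOn hne continuous_norm.continuousOn
  have hv' : v ∈ Rot (fun x => ψ 0 (F x)) (fun x => b 1 x + b 0 (F x)) := by
    have e1 : (fun x => ψ 0 (F x)) = fun x => F x := by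
      funext x
      exact hψ.zero _
    have e2 : (fun x => b 1 x + b 0 (F x)) = b 1 := by
      funext x
      rw [hb.zero, add_zero]
    rw [e1, e2]
    exact hv
  rw [rot_flow hψc hψ.zero hψ.add F.continuous hcom ha hb 0] at hv'
  obtain ⟨ν', n1, n2, n3, hv2⟩ := hv'
  rw [zero_smul, add_zero] at hv2
  have h2 := (h e U (b 1) b ha hb (ε / 2) (by rw [abs_of_pos (half_pos hε)]; exact half_lt_self hε)).2
    ν' n1 n2 n3
  rw [← hv2] at h2
  have h3 : ‖v + (ε / 2) • v‖ ≤ ‖v‖ := hmax h2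
  have h4 : v + (ε / 2) • v = (1 + ε / 2) • v := by rw [add_smul, one_smul]
  rw [h4, norm_smul, Real.norm_eq_abs, abs_of_pos (by linarith)] at h3
  have h5 : ‖v‖ ≤ 0 := by
    have h6 : 0 ≤ ‖v‖ := norm_nonneg v
    by_contra hcon
    push Not at hcon
    nlinarith
  have h7 : ‖∫ x, b 1 x ∂ν‖ ≤ ‖v‖ := hmax ⟨ν, inferInstance, hν, rfl⟩
  exact norm_le_zero_iff.1 (h7.trans h5)

end Pool.Agent.H246.RS
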