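import Pool.Agent.H246.RS.Rot
import Pool.Graph.R_pool_sql_team_seeded_63374d34.N102.UF.Fac

/-!
# Rotation sets and `Ω`-conjugacies
-/

set_option autoImplicit false
set_option linter.unusedSectionVars false

open Filter Set Topology MeasureTheory

universe u

namespace Pool.Agent.H246.RS

open Pool.Agent.TH80.OMS

section conj

variable {X Y : Type u} [TopologicalSpace X] [CompactSpace X] [MeasurableSpace X] [BorelSpace X]
  [TopologicalSpace Y] [CompactSpace Y] [MeasurableSpace Y] [BorelSpace Y]

theorem rot_conj_le {e : ℕ} {f : X → X} {g : Y → Y} (hf : Continuous f) (hg : Continuous g)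
    (h : X ≃ₜ Y) (hh : ∀ x, h (f x) = g (h x)) (a : Y → Fin e → ℝ) :
    Rot g a ⊆ Rot f (fun x => a (h x)) := by
  rintro v ⟨ν, hν1, hν, rfl⟩
  have hh' : ∀ y, f (h.symm y) = h.symm (g y) := by
    intro y
    rw [Homeomorph.eq_symm_apply, hh, h.apply_symm_apply]
  refine ⟨Measure.map h.symm ν, ?_, ⟨hf.measurable, ?_⟩, ?_⟩
  · exact Measure.isProbabilityMeasure_map h.symm.continuous.measurable.aemeasurable
  · rw [Measure.map_map hf.measurable h.symm.continuous.measurable]
    have : f ∘ h.symm = h.symm ∘ g := by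
      funext y
      exact hh' y
    rw [this, ← Measure.map_map h.symm.continuous.measurable hg.measurable, hν.map_eq]
  · have h1 : ∫ x, a (h x) ∂(Measure.map h.symm.toMeasurableEquiv ν) =
        ∫ y, a (h (h.symm.toMeasurableEquiv y)) ∂ν := integral_map_equiv _ _
    have h2 : (Measure.map h.symm ν) = Measure.map h.symm.toMeasurableEquiv ν := rfl
    rw [h2, h1]
    congr 1
    funext y
    show a y = a (h (h.symm y))
    rw [h.apply_symm_apply]

theorem rot_conj {e : ℕ} {f : X → X} {g : Y → Y} (hf : Continuous f) (hg : Continuous g)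
    (h : X ≃ₜ Y) (hh : ∀ x, h (f x) = g (h x)) (a : Y → Fin e → ℝ) :
    Rot g a = Rot f (fun x => a (h x)) := by
  refine Subset.antisymm (rot_conj_le hf hg h hh a) ?_
  have := rot_conj_le hg hf h.symm (fun y => by
    rw [Homeomorph.symm_apply_eq, hh, h.apply_symm_apply]) (fun x => a (h x))
  refine this.trans ?_
  apply le_of_eq
  congr 1
  funext y
  rw [h.apply_symm_apply]

end conj

section sub

variable {X : Type u} [TopologicalSpace X] [CompactSpace X] [MeasurableSpace X] [BorelSpace X]

theorem rot_sub {e : ℕ} {f : X → X} (hf : Continuous f) {Ω : Set X} (hΩ : MeasurableSet Ω)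
    (hinv : ∀ x ∈ Ω, f x ∈ Ω)
    (hnull : ∀ ν : Measure X, IsProbabilityMeasure ν → MeasurePreserving f ν ν → ν Ωᶜ = 0)
    (a : X → Fin e → ℝ) :
    Rot f a = Rot (fun x : Ω => (⟨f x, hinv x x.2⟩ : Ω)) (fun x : Ω => a x) := by
  have hE : MeasurableEmbedding (Subtype.val : Ω → X) := MeasurableEmbedding.subtype_coe hΩ
  have hf' : Continuous (fun x : Ω => (⟨f x, hinv x x.2⟩ : Ω)) := by fun_prop
  apply Subset.antisymm
  · rintro v ⟨ν, hν1, hν, rfl⟩
    have h0 := hnull ν hν1 hν
    have hmc : Measure.map Subtype.val (Measure.comap (Subtype.val : Ω → X) ν) = ν := by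
      rw [hE.map_comap, Subtype.range_coe]
      exact Measure.restrict_eq_self_of_ae_mem (by rwa [ae_iff])
    refine ⟨Measure.comap Subtype.val ν, ⟨?_⟩, ⟨hf'.measurable, ?_⟩, ?_⟩
    · rw [hE.comap_apply, image_univ, Subtype.range_coe]
      have := prob_compl_eq_zero_iff (μ := ν) hΩ
      exact this.1 h0
    · have h1 : Measure.map Subtype.val (Measure.map (fun x : Ω => (⟨f x, hinv x x.2⟩ : Ω))
          (Measure.comap (Subtype.val : Ω → X) ν)) = ν := by
        rw [Measure.map_map hE.measurable hf'.measurable]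
        have : (Subtype.val : Ω → X) ∘ (fun x : Ω => (⟨f x, hinv x x.2⟩ : Ω)) = f ∘ Subtype.val := rfl
        rw [this, ← Measure.map_map hf.measurable hE.measurable, hmc, hν.map_eq]
      have h2 := congrArg (Measure.comap (Subtype.val : Ω → X)) h1
      rwa [hE.comap_map] at h2
    · conv_lhs => rw [← hmc]
      rw [hE.integral_map]
  · rintro v ⟨ν, hν1, hν, rfl⟩
    refine ⟨Measure.map Subtype.val ν, ?_, ⟨hf.measurable, ?_⟩, ?_⟩
    · exact Measure.isProbabilityMeasure_map hE.measurable.aemeasurable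
    · rw [Measure.map_map hf.measurable hE.measurable]
      have : f ∘ (Subtype.val : Ω → X) = Subtype.val ∘ (fun x : Ω => (⟨f x, hinv x x.2⟩ : Ω)) := rfl
      rw [this, ← Measure.map_map hE.measurable hf'.measurable, hν.map_eq]
    · rw [hE.integral_map]

end sub

section omega

variable {N : Type u} [TopologicalSpace N] [T2Space N] [CompactSpace N]
  [SecondCountableTopology N] [MeasurableSpace N] [BorelSpace N]

/-- invariant measures live on the nonwandering set -/
theorem omega_null {F : N → N} (ν : Measure N) [IsFiniteMeasure ν] (hν : MeasurePreserving F ν ν) :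
    ν (Omega F)ᶜ = 0 := by
  refine measure_null_of_locally_null _ fun x hx => ?_
  have : ∃ W : Set N, IsOpen W ∧ x ∈ W ∧ ∀ k : ℕ, 1 ≤ k → ∀ y ∈ W, F^[k] y ∉ W := by
    by_contra hcon
    push Not at hcon
    apply hx
    intro W hW hxW
    obtain ⟨k, hk, y, hy, hky⟩ := hcon W hW hxW
    exact ⟨k, hk, y, hy, hky⟩
  obtain ⟨W, hW, hxW, hno⟩ := this
  refine ⟨W, mem_nhdsWithin_of_mem_nhds (hW.mem_nhds hxW), ?_⟩
  by_contra h0
  obtain ⟨y, hy, m, hm, hmy⟩ := hν.exists_mem_iterate_mem hW.measurableSet.nullMeasurableSet h0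
  exact hno m (Nat.one_le_iff_ne_zero.2 hm) y hy hmy

theorem omega_univ {F : N → N} (μ : Measure N) [IsFiniteMeasure μ] [μ.IsOpenPosMeasure]
    (hμ : MeasurePreserving F μ μ) : Omega F = univ := by
  have h1 := omega_null μ hμ
  have h2 : IsOpen (Omega F)ᶜ := (Pool.Agent.N102.UF.omega_closed F).isOpen_compl
  have h3 : (Omega F)ᶜ = ∅ := by
    by_contra hne
    exact (h2.measure_pos μ (nonempty_iff_ne_empty.2 hne)).ne' h1
  exact compl_empty_iff.1 h3

/-- The rotation set of a map which is `Ω`-conjugate to `F`. -/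
theorem rot_transfer {e : ℕ} {F G : N → N} (hF : Continuous F) (hG : Continuous G)
    (h : Omega F ≃ₜ Omega G) (hh : ∀ x y : Omega F, F x = y → G (h x) = h y)
    (a : N → Fin e → ℝ) :
    Rot G a = Rot (fun x : Omega F => (⟨F x, omega_maps hF x.2⟩ : Omega F))
      (fun x => a (h x)) := by
  have hc1 : CompactSpace (Omega F) :=
    isCompact_iff_compactSpace.1 (Pool.Agent.N102.UF.omega_closed F).isCompact
  have hc2 : CompactSpace (Omega G) :=
    isCompact_iff_compactSpace.1 (Pool.Agent.N102.UF.omega_closed G).isCompact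
  rw [rot_sub hG (Pool.Agent.N102.UF.omega_closed G).measurableSet (fun x hx => omega_maps hG hx)
    (fun ν hν1 hν => omega_null ν hν) a]
  refine rot_conj (by fun_prop) (by fun_prop) h (fun x => ?_) _
  apply Subtype.ext
  exact (hh x ⟨F x, omega_maps hF x.2⟩ rfl).symm

theorem disp_transfer {e : ℕ} {F G : N → N} (hF : Continuous F)
    (h : Omega F ≃ₜ Omega G) (hh : ∀ x y : Omega F, F x = y → G (h x) = h y)
    {U : N → Fin e → UnitAddCircle} {a : N → Fin e → ℝ} (hU : IsDisp G U a) :
    IsDisp (fun x : Omega F => (⟨F x, omega_maps hF x.2⟩ : Omega F)) (fun x => U (h x))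
      (fun x => a (h x)) := by
  refine ⟨?_, ?_, ?_⟩
  · exact hU.contU.comp (continuous_subtype_val.comp h.continuous)
  · exact hU.conta.comp (continuous_subtype_val.comp h.continuous)
  · intro x i
    have h1 : ((h ⟨F x, omega_maps hF x.2⟩ : Omega G) : N) = G (h x) :=
      (hh x ⟨F x, omega_maps hF x.2⟩ rfl).symm
    show U (h ⟨F x, omega_maps hF x.2⟩ : Omega G) i = _
    rw [h1]
    exact hU.disp _ _

/-- The maps `Ω`-conjugate to `F` have only countably many rotation sets. -/
theorem countable_rot_conj {F : N → N} (hF : Continuous F) (e : ℕ) :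
    {R : Set (Fin e → ℝ) | ∃ (G : N → N) (U : N → Fin e → UnitAddCircle) (a : N → Fin e → ℝ),
      Continuous G ∧ OmegaConj F G ∧ IsDisp G U a ∧ R = Rot G a}.Countable := by
  have hc1 : CompactSpace (Omega F) :=
    isCompact_iff_compactSpace.1 (Pool.Agent.N102.UF.omega_closed F).isCompact
  refine (countable_rot (X := Omega F) (e := e)
    (f := fun x : Omega F => (⟨F x, omega_maps hF x.2⟩ : Omega F)) (by fun_prop)).mono ?_
  rintro R ⟨G, U, a, hG, ⟨h, hh⟩, hU, rfl⟩
  exact ⟨_, _, disp_transfer hF h hh hU, rot_transfer hF hG h hh a⟩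

end omega

end Pool.Agent.H246.RS
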