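import Mathlib

/-!
# Integer affine images of a convex body
-/

set_option autoImplicit false
set_option linter.unusedSectionVars false

open Filter Set Topology MeasureTheory

namespace Pool.Agent.H246.RS

variable {e : ℕ}

/-- the affine map with the integer linear part `A` and the integer translation part `m` -/
def aff (A : Fin e → Fin e → ℤ) (m : Fin e → ℤ) (v : Fin e → ℝ) : Fin e → ℝ :=
  fun i => ∑ k, (A i k : ℝ) * v k + m i

theorem aff_cont (A : Fin e → Fin e → ℤ) (m : Fin e → ℤ) : Continuous (aff A m) := by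
  unfold aff
  fun_prop

theorem finite_aff {K : Set (Fin e → ℝ)} (hK : Bornology.IsBounded K) (hint : (interior K).Nonempty) :
    {p : (Fin e → Fin e → ℤ) × (Fin e → ℤ) |
      aff p.1 p.2 '' K ⊆ Metric.thickening 1 K}.Finite := by
  classical
  obtain ⟨C, hC⟩ := (isBounded_iff_forall_norm_le.1 hK.thickening : ∃ C, ∀ x ∈ Metric.thickening 1 K, ‖x‖ ≤ C)
  obtain ⟨p, hp⟩ := hint
  obtain ⟨ρ, hρ, hball⟩ := Metric.isOpen_iff.1 isOpen_interior p hp
  have hpK : p ∈ K := interior_subset hp
  have hC0 : 0 ≤ C := (norm_nonneg p).trans (hC p (Metric.self_subset_thickening one_pos K hpK))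
  obtain ⟨M, hM⟩ := exists_nat_ge (4 * C / ρ)
  obtain ⟨M', hM'⟩ := exists_nat_ge (C + e * (M * ‖p‖))
  let B : Set ((Fin e → Fin e → ℤ) × (Fin e → ℤ)) :=
    Icc ((fun _ _ => -(M : ℤ)), (fun _ => -(M' : ℤ))) ((fun _ _ => (M : ℤ)), (fun _ => (M' : ℤ)))
  have hB : B.Finite := Set.finite_Icc _ _
  refine hB.subset ?_
  rintro ⟨A, m⟩ hA
  have hA' : ∀ v ∈ K, ∀ i, |aff A m v i| ≤ C := by
    intro v hv i
    have h1 := hC _ (hA ⟨v, hv, rfl⟩)
    exact (norm_le_pi_norm (aff A m v) i).trans h1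
  have hent : ∀ i k, |A i k| ≤ M := by
    intro i k
    have hq : p + Pi.single k (ρ / 2) ∈ K := by
      apply interior_subset
      apply hball
      rw [Metric.mem_ball, dist_eq_norm, add_sub_cancel_left, Pi.norm_single, Real.norm_eq_abs,
        abs_of_pos (half_pos hρ)]
      exact half_lt_self hρ
    have h1 := hA' _ hq i
    have h2 := hA' _ hpK i
    have h3 : aff A m (p + Pi.single k (ρ / 2)) i - aff A m p i = A i k * (ρ / 2) := by
      simp only [aff, Pi.add_apply, mul_add, Finset.sum_add_distrib]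
      have : ∑ x, (A i x : ℝ) * (Pi.single k (ρ / 2) : Fin e → ℝ) x = A i k * (ρ / 2) := by
        rw [Finset.sum_eq_single k]
        · rw [Pi.single_eq_same]
        · intro j _ hj
          rw [Pi.single_eq_of_ne hj, mul_zero]
        · intro h
          exact absurd (Finset.mem_univ k) h
      rw [this]
      ring
    have h4 : |(A i k : ℝ) * (ρ / 2)| ≤ 2 * C := by
      rw [← h3, abs_le]
      rw [abs_le] at h1 h2
      constructor <;> linarith [h1.1, h1.2, h2.1, h2.2]
    rw [abs_mul, abs_of_pos (half_pos hρ)] at h4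
    have h5 : |(A i k : ℝ)| ≤ 4 * C / ρ := by
      rw [le_div_iff₀ hρ]
      linarith
    have h6 : |(A i k : ℝ)| ≤ (M : ℝ) := h5.trans hM
    exact_mod_cast h6
  have hm : ∀ i, |m i| ≤ M' := by
    intro i
    have h2 := hA' _ hpK i
    have h3 : |∑ k, (A i k : ℝ) * p k| ≤ e * (M * ‖p‖) := by
      calc |∑ k, (A i k : ℝ) * p k| ≤ ∑ k, |(A i k : ℝ) * p k| := Finset.abs_sum_le_sum_abs _ _
        _ ≤ ∑ _k : Fin e, (M * ‖p‖) := by
            apply Finset.sum_le_sum
            intro k _
            rw [abs_mul]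
            have h4 : |(A i k : ℝ)| ≤ (M : ℝ) := by exact_mod_cast hent i k
            have h5 : |p k| ≤ ‖p‖ := norm_le_pi_norm p k
            gcongr
        _ = e * (M * ‖p‖) := by simp
    have h4 : |(m i : ℝ)| ≤ C + e * (M * ‖p‖) := by
      have h5 : (m i : ℝ) = aff A m p i - ∑ k, (A i k : ℝ) * p k := by
        simp only [aff]; ring
      rw [h5]
      rw [abs_le] at h2 h3 ⊢
      constructor <;> linarith [h2.1, h2.2, h3.1, h3.2]
    have h6 : |(m i : ℝ)| ≤ (M' : ℝ) := h4.trans hM'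
    exact_mod_cast h6
  refine ⟨⟨?_, ?_⟩, ⟨?_, ?_⟩⟩
  · intro i k
    exact (abs_le.1 (hent i k)).1
  · intro i
    exact (abs_le.1 (hm i)).1
  · intro i k
    exact (abs_le.1 (hent i k)).2
  · intro i
    exact (abs_le.1 (hm i)).2

/-- An integer affine image of a convex body which is almost contained in the body is contained in
it. -/
theorem exists_delta {K : Set (Fin e → ℝ)} (hK : Bornology.IsBounded K) (hcl : IsClosed K)
    (hint : (interior K).Nonempty) :
    ∃ δ : ℝ, 0 < δ ∧ ∀ (A : Fin e → Fin e → ℤ) (m : Fin e → ℤ),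
      aff A m '' K ⊆ Metric.thickening δ K → aff A m '' K ⊆ K := by
  have hfin := finite_aff hK hint
  have h1 : ∀ p : (Fin e → Fin e → ℤ) × (Fin e → ℤ), ∀ᶠ δ in 𝓝[>] (0 : ℝ),
      aff p.1 p.2 '' K ⊆ Metric.thickening δ K → aff p.1 p.2 '' K ⊆ K := by
    intro p
    by_cases h : aff p.1 p.2 '' K ⊆ K
    · exact Eventually.of_forall fun _ _ => h
    · have h2 : ∃ δ : ℝ, 0 < δ ∧ ¬ aff p.1 p.2 '' K ⊆ Metric.thickening δ K := by
        by_contra hcon
        push Not at hcon
        apply h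
        have h3 : aff p.1 p.2 '' K ⊆ ⋂ (δ : ℝ) (_ : 0 < δ), Metric.thickening δ K := by
          intro x hx
          rw [mem_iInter₂]
          intro δ hδ
          exact hcon δ hδ hx
        rw [← Metric.closure_eq_iInter_thickening, hcl.closure_eq] at h3
        exact h3
      obtain ⟨δ₀, hδ₀, hn⟩ := h2
      filter_upwards [Ioo_mem_nhdsGT hδ₀] with δ hδ hsub
      exact absurd (hsub.trans (Metric.thickening_mono hδ.2.le K)) hn
  have h2 : ∀ᶠ δ in 𝓝[>] (0 : ℝ), ∀ p ∈ {p : (Fin e → Fin e → ℤ) × (Fin e → ℤ) |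
      aff p.1 p.2 '' K ⊆ Metric.thickening 1 K},
      aff p.1 p.2 '' K ⊆ Metric.thickening δ K → aff p.1 p.2 '' K ⊆ K :=
    (eventually_all_finite hfin).2 fun p _ => h1 p
  have h3 : ∀ᶠ δ in 𝓝[>] (0 : ℝ), δ ∈ Ioo (0 : ℝ) 1 := Ioo_mem_nhdsGT one_pos
  obtain ⟨δ, hδ, hδ'⟩ := (h2.and h3).exists
  refine ⟨δ, hδ'.1, fun A m hA => ?_⟩
  exact hδ (A, m) (hA.trans (Metric.thickening_mono hδ'.2.le K)) hA

theorem aff_eq (A : Fin e → Fin e → ℤ) (m : Fin e → ℤ) (v : Fin e → ℝ) :
    aff A m v = Matrix.toLin' (Matrix.of fun i k => (A i k : ℝ)) v + fun i => (m i : ℝ) := by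
  funext i
  simp [aff, Matrix.mulVec, dotProduct]

theorem volume_aff (A : Fin e → Fin e → ℤ) (m : Fin e → ℤ) (K : Set (Fin e → ℝ)) :
    volume (aff A m '' K) =
      ENNReal.ofReal |((Matrix.of A).det : ℝ)| * volume K := by
  have h1 : aff A m '' K = (fun v => v + fun i => (m i : ℝ)) ''
      (Matrix.toLin' (Matrix.of fun i k => (A i k : ℝ)) '' K) := by
    rw [image_image]
    apply image_congr
    intro v _
    exact aff_eq A m v
  rw [h1, image_add_right, measure_preimage_add_right, Measure.addHaar_image_linearMap,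
    LinearMap.det_toLin']
  congr 3
  have h2 : (Matrix.of fun i k => (A i k : ℝ)) = (Int.castRingHom ℝ).mapMatrix (Matrix.of A) := rfl
  rw [h2, ← RingHom.map_det]
  rfl

/-- if `K' = aff A m K ⊆ K` and `K = aff A' m' K'`, then `K' = K` -/
theorem eq_of_both {K K' : Set (Fin e → ℝ)} (hK : Bornology.IsBounded K) (hconv : Convex ℝ K)
    (hcl' : IsClosed K')
    (hint : (interior K).Nonempty) {A A' : Fin e → Fin e → ℤ} {m m' : Fin e → ℤ}
    (h1 : K' = aff A m '' K) (h2 : K = aff A' m' '' K') (h3 : K' ⊆ K) : K' = K := by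
  have hv : volume K ≠ ⊤ := hK.measure_lt_top.ne
  have hv0 : volume K ≠ 0 := by
    obtain ⟨p, hp⟩ := hint
    exact ((isOpen_interior.measure_pos volume ⟨p, hp⟩).trans_le
      (measure_mono interior_subset)).ne'
  have e1 := volume_aff A m K
  have e2 := volume_aff A' m' K'
  rw [← h1] at e1
  rw [← h2] at e2
  set d : ℤ := (Matrix.of A).det
  set d' : ℤ := (Matrix.of A').det
  have hd : 1 ≤ |d| := by
    apply Int.one_le_abs
    intro h0
    rw [h0, Int.cast_zero, abs_zero, ENNReal.ofReal_zero, zero_mul] at e1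
    rw [e1, mul_zero] at e2
    exact hv0 e2
  have hd' : (1 : ENNReal) ≤ ENNReal.ofReal |((d : ℤ) : ℝ)| := by
    rw [ENNReal.one_le_ofReal]
    exact_mod_cast hd
  have hge : volume K ≤ volume K' := by
    rw [e1]
    calc volume K = 1 * volume K := (one_mul _).symm
      _ ≤ ENNReal.ofReal |((d : ℤ) : ℝ)| * volume K := by gcongr
  by_contra hne
  have hx : ∃ x ∈ K, x ∉ K' := by
    by_contra hcon
    push Not at hcon
    exact hne (Subset.antisymm h3 hcon)
  obtain ⟨x, hxK, hxK'⟩ := hx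
  have hxcl : x ∈ closure (interior K) := by
    rw [hconv.closure_interior_eq_closure_of_nonempty_interior hint]
    exact subset_closure hxK
  obtain ⟨y, hy1, hy2⟩ := mem_closure_iff.1 hxcl K'ᶜ hcl'.isOpen_compl hxK'
  have hopen : IsOpen (K'ᶜ ∩ interior K) := hcl'.isOpen_compl.inter isOpen_interior
  have hpos : 0 < volume (K'ᶜ ∩ interior K) := hopen.measure_pos volume ⟨y, hy1, hy2⟩
  have hdisj : Disjoint K' (K'ᶜ ∩ interior K) := by
    rw [Set.disjoint_left]
    intro z hz hz'
    exact hz'.1 hz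
  have hsum : volume K' + volume (K'ᶜ ∩ interior K) ≤ volume K := by
    rw [← measure_union hdisj hopen.measurableSet]
    apply measure_mono
    rintro z (hz | hz)
    · exact h3 hz
    · exact interior_subset hz.2
  have hlt : volume K < volume K' + volume (K'ᶜ ∩ interior K) := by
    calc volume K ≤ volume K' := hge
      _ < volume K' + volume (K'ᶜ ∩ interior K) := by
          apply ENNReal.lt_add_right ?_ hpos.ne'
          exact ((measure_mono h3).trans_lt hK.measure_lt_top).ne
  exact absurd hsum (not_le.2 hlt)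

end Pool.Agent.H246.RS
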