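import Pool.Agent.H246.RS.Rot

/-!
# Limits of rotation vectors
-/

set_option autoImplicit false
set_option linter.unusedSectionVars false

open Filter Set Topology MeasureTheory

universe u

namespace Pool.Agent.H246.RS

variable {X : Type u} [TopologicalSpace X] [CompactSpace X] [T2Space X]
  [SecondCountableTopology X] [MeasurableSpace X] [BorelSpace X]

theorem limit_rot {e : ℕ} {f : X → X} (hf : Continuous f) {a : X → Fin e → ℝ} (ha : Continuous a)
    {ι : Type*} (l : Ultrafilter ι) (G : ι → X → X) (hG : ∀ i, Continuous (G i))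
    (D : ι → X → Fin e → ℝ) (hD : ∀ i, Continuous (D i))
    (hGc : ∀ φ : C(X, ℝ), ∀ ε : ℝ, 0 < ε → ∀ᶠ i in l, ∀ x, |φ (G i x) - φ (f x)| < ε)
    (hDc : ∀ ε : ℝ, 0 < ε → ∀ᶠ i in l, ∀ x, ‖D i x - a x‖ < ε)
    (w : ι → Fin e → ℝ) (hw : ∀ i, w i ∈ Rot (G i) (D i)) :
    ∃ v ∈ Rot f a, Tendsto w l (𝓝 v) := by
  choose ν hν1 hν hνw using hw
  let P : ι → ProbabilityMeasure X := fun i => ⟨ν i, hν1 i⟩
  have hlim : ∃ P0 : ProbabilityMeasure X, Tendsto P l (𝓝 P0) := by
    obtain ⟨P0, -, h⟩ := isCompact_univ.ultrafilter_le_nhds (l.map P) (by simp)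
    exact ⟨P0, h⟩
  obtain ⟨P0, hP0⟩ := hlim
  have hint : ∀ φ : C(X, ℝ), Tendsto (fun i => ∫ x, φ x ∂(ν i)) l (𝓝 (∫ x, φ x ∂(P0 : Measure X))) := by
    intro φ
    have := (ProbabilityMeasure.tendsto_iff_forall_integral_tendsto.1 hP0)
      (BoundedContinuousFunction.mkOfCompact φ)
    exact this
  have hintr : ∀ (φ : X → ℝ), Continuous φ → ∀ (m : Measure X) [IsFiniteMeasure m],
      Integrable φ m := fun φ hφ m _ =>
    (BoundedContinuousFunction.mkOfCompact ⟨φ, hφ⟩).integrable m
  have hinv : Measure.map f (P0 : Measure X) = (P0 : Measure X) := by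
    have hfin : IsFiniteMeasure (Measure.map f (P0 : Measure X)) :=
      Measure.isFiniteMeasure_map _ _
    apply ext_of_forall_integral_eq_of_IsFiniteMeasure
    intro φ
    rw [integral_map hf.measurable.aemeasurable
      (hintr φ φ.continuous (Measure.map f (P0 : Measure X))).aestronglyMeasurable]
    have h1 := hint ⟨fun x => φ (f x), φ.continuous.comp hf⟩
    have h2 := hint ⟨φ, φ.continuous⟩
    simp only [ContinuousMap.coe_mk] at h1 h2
    have h3 : Tendsto (fun i => ∫ x, φ (f x) ∂(ν i) - ∫ x, φ x ∂(ν i)) l (𝓝 0) := by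
      rw [Metric.tendsto_nhds]
      intro ε hε
      filter_upwards [hGc ⟨φ, φ.continuous⟩ (ε / 2) (half_pos hε)] with i hi
      have e1 : ∫ x, φ x ∂(ν i) = ∫ x, φ (G i x) ∂(ν i) := by
        conv_lhs => rw [← (hν i).map_eq]
        rw [integral_map (hG i).measurable.aemeasurable
          (hintr φ φ.continuous (Measure.map (G i) (ν i))).aestronglyMeasurable]
      have i1 : Integrable (fun x => φ (f x)) (ν i) := hintr _ (φ.continuous.comp hf) (ν i)
      have i2 : Integrable (fun x => φ (G i x)) (ν i) := hintr _ (φ.continuous.comp (hG i)) (ν i)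
      rw [dist_zero_right, e1, ← integral_sub i1 i2]
      have h4 : ‖∫ x, (φ (f x) - φ (G i x)) ∂(ν i)‖ ≤ ε / 2 * (ν i).real univ := by
        apply norm_integral_le_of_norm_le_const
        refine Eventually.of_forall fun x => ?_
        have := hi x
        rw [Real.norm_eq_abs, abs_sub_comm]
        exact this.le
      rw [probReal_univ, mul_one] at h4
      exact h4.trans_lt (half_lt_self hε)
    have h5 := h1.sub h2
    have h6 := tendsto_nhds_unique h5 h3
    linarith
  refine ⟨∫ x, a x ∂(P0 : Measure X), ⟨P0, inferInstance, ⟨hf.measurable, hinv⟩, rfl⟩, ?_⟩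
  rw [tendsto_pi_nhds]
  intro j
  have hcoord : ∀ (m : Measure X) [IsFiniteMeasure m] (c : X → Fin e → ℝ), Continuous c →
      (∫ x, c x ∂m) j = ∫ x, c x j ∂m := by
    intro m _ c hc
    have := (ContinuousLinearMap.proj (R := ℝ) (φ := fun _ : Fin e => ℝ) j).integral_comp_comm
      (integrable_of_cont hc m)
    exact this.symm
  have h1 := hint ⟨fun x => a x j, (continuous_apply j).comp ha⟩
  simp only [ContinuousMap.coe_mk] at h1
  have h2 : Tendsto (fun i => w i j - ∫ x, a x j ∂(ν i)) l (𝓝 0) := by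
    rw [Metric.tendsto_nhds]
    intro ε hε
    filter_upwards [hDc (ε / 2) (half_pos hε)] with i hi
    have i1 : Integrable (fun x => D i x j) (ν i) :=
      hintr _ ((continuous_apply j).comp (hD i)) (ν i)
    have i2 : Integrable (fun x => a x j) (ν i) := hintr _ ((continuous_apply j).comp ha) (ν i)
    rw [dist_zero_right, hνw i, hcoord _ _ (hD i), ← integral_sub i1 i2]
    have h4 : ‖∫ x, (D i x j - a x j) ∂(ν i)‖ ≤ ε / 2 * (ν i).real univ := by
      apply norm_integral_le_of_norm_le_const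
      refine Eventually.of_forall fun x => ?_
      exact (norm_le_pi_norm (D i x - a x) j).trans (hi x).le
    rw [probReal_univ, mul_one] at h4
    exact h4.trans_lt (half_lt_self hε)
  have h3 := h2.add h1
  rw [zero_add] at h3
  rw [hcoord _ _ ha]
  refine h3.congr fun i => ?_
  ring

/-- Rotation sets are closed. -/
theorem rot_closed {e : ℕ} {f : X → X} (hf : Continuous f) {a : X → Fin e → ℝ} (ha : Continuous a) :
    IsClosed (Rot f a) := by
  rw [← closure_subset_iff_isClosed]
  intro v hv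
  have hne : (comap (Subtype.val : Rot f a → (Fin e → ℝ)) (𝓝 v)).NeBot :=
    mem_closure_iff_comap_neBot.1 hv
  let l : Ultrafilter (Rot f a) := Ultrafilter.of (comap (Subtype.val : Rot f a → (Fin e → ℝ)) (𝓝 v))
  have hl : (l : Filter (Rot f a)) ≤ comap Subtype.val (𝓝 v) := Ultrafilter.of_le _
  obtain ⟨w, hw, hlim⟩ := limit_rot hf ha l (fun _ => f) (fun _ => hf) (fun _ => a) (fun _ => ha)
    (fun φ ε hε => Eventually.of_forall fun i x => by simpa using hε)
    (fun ε hε => Eventually.of_forall fun i x => by simpa using hε) Subtype.val (fun i => i.2)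
  have h2 : Tendsto (Subtype.val : Rot f a → (Fin e → ℝ)) l (𝓝 v) := tendsto_iff_comap.2 hl
  rw [tendsto_nhds_unique h2 hlim]
  exact hw

theorem rot_bounded {e : ℕ} {f : X → X} {a : X → Fin e → ℝ} (ha : Continuous a) :
    Bornology.IsBounded (Rot f a) := by
  obtain ⟨C, hC⟩ := (isCompact_range ha.norm).bddAbove
  rw [isBounded_iff_forall_norm_le]
  refine ⟨C, ?_⟩
  rintro v ⟨ν, hν1, hν, rfl⟩
  have h4 : ‖∫ x, a x ∂ν‖ ≤ C * ν.real univ := by
    apply norm_integral_le_of_norm_le_const
    exact Eventually.of_forall fun x => hC ⟨x, rfl⟩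
  rwa [probReal_univ, mul_one] at h4

theorem rot_compact {e : ℕ} {f : X → X} (hf : Continuous f) {a : X → Fin e → ℝ} (ha : Continuous a) :
    IsCompact (Rot f a) :=
  Metric.isCompact_of_isClosed_isBounded (rot_closed hf ha) (rot_bounded ha)

end Pool.Agent.H246.RS
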