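import Pool.Graph.R_seed8.H718R2.G0

/-!
# `C⁰`-neighbourhoods are neighbourhoods in the strong topology
-/

set_option autoImplicit false
set_option linter.unusedSectionVars false

open scoped Manifold ContDiff Topology
open Filter Set Topology

universe u

namespace Pool.Agent.H246.RS

open Pool.Agent.H718R2.G

variable {n : ℕ} {N : Type u} [TopologicalSpace N] [ChartedSpace (V n) N] [IsManifold (𝓡 n) ∞ N]
  [T2Space N] [CompactSpace N]

theorem near {E : Type*} [PseudoMetricSpace E] (r : ℕ∞) (F : DiffM n N r) {φ : N → E}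
    (hφ : Continuous φ) {ε : ℝ} (hε : 0 < ε) :
    ∃ 𝒰 : Set (DiffM n N r), IsOpen[strongTop n N r] 𝒰 ∧ F ∈ 𝒰 ∧
      ∀ G ∈ 𝒰, ∀ x, dist (φ (G x)) (φ (F x)) < ε := by
  classical
  have hLC : LocallyCompactSpace N := inferInstance
  have key : ∀ x : N, ∃ K : Set N, IsCompact K ∧ K ∈ 𝓝 x ∧ K ⊆ (chartAt (V n) x).source ∧
      ∃ η : ℝ, 0 < η ∧ ∀ y ∈ K, F y ∈ (chartAt (V n) (F x)).source ∧
        ∀ z ∈ (chartAt (V n) (F x)).source,
          ‖chartAt (V n) (F x) z - chartAt (V n) (F x) (F y)‖ < η → dist (φ z) (φ (F y)) < ε := by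
    intro x
    set χ := chartAt (V n) (F x) with hχ
    have hFx : F x ∈ χ.source := mem_chart_source _ _
    have h1 : ContinuousAt (fun w => φ (χ.symm w)) (χ (F x)) :=
      hφ.continuousAt.comp (χ.continuousAt_symm (χ.map_source hFx))
    have h2 : ∀ᶠ w in 𝓝 (χ (F x)), dist (φ (χ.symm w)) (φ (F x)) < ε / 2 := by
      have h3 := h1.eventually (Metric.ball_mem_nhds _ (half_pos hε))
      filter_upwards [h3] with w hw
      have e1 : χ.symm (χ (F x)) = F x := χ.left_inv hFx
      have hw' : dist (φ (χ.symm w)) (φ (χ.symm (χ (F x)))) < ε / 2 := hw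
      rwa [e1] at hw'
    obtain ⟨η, hη, h4⟩ := Metric.eventually_nhds_iff.1 h2
    have h5 : ContinuousAt (fun y => χ (F y)) x :=
      (χ.continuousAt hFx).comp F.continuous.continuousAt
    have h6 : {y | F y ∈ χ.source ∧ dist (χ (F y)) (χ (F x)) < η / 2} ∩
        (chartAt (V n) x).source ∈ 𝓝 x := by
      refine inter_mem ?_ (chart_source_mem_nhds _ _)
      have h7 : ∀ᶠ y in 𝓝 x, F y ∈ χ.source :=
        F.continuous.continuousAt.eventually (χ.open_source.mem_nhds hFx)
      have h8 : ∀ᶠ y in 𝓝 x, dist (χ (F y)) (χ (F x)) < η / 2 :=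
        h5.eventually (Metric.ball_mem_nhds _ (half_pos hη))
      filter_upwards [h7, h8] with y hy1 hy2
      exact ⟨hy1, hy2⟩
    obtain ⟨K, hK1, hK2, hK3⟩ := local_compact_nhds h6
    refine ⟨K, hK3, hK1, fun y hy => (hK2 hy).2, η / 2, half_pos hη, fun y hy => ?_⟩
    obtain ⟨⟨hy1, hy2⟩, -⟩ := hK2 hy
    refine ⟨hy1, fun z hz hzy => ?_⟩
    have e1 : dist (φ z) (φ (F x)) < ε / 2 := by
      have h9 : dist (χ z) (χ (F x)) < η := by
        calc dist (χ z) (χ (F x)) ≤ dist (χ z) (χ (F y)) + dist (χ (F y)) (χ (F x)) :=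
              dist_triangle _ _ _
          _ < η / 2 + η / 2 := by
              rw [← dist_eq_norm] at hzy
              exact add_lt_add hzy hy2
          _ = η := by ring
      have h10 := h4 h9
      rwa [χ.left_inv hz] at h10
    have e2 : dist (φ (F y)) (φ (F x)) < ε / 2 := by
      have h10 := h4 (hy2.trans (half_lt_self hη))
      rwa [χ.left_inv hy1] at h10
    calc dist (φ z) (φ (F y)) ≤ dist (φ z) (φ (F x)) + dist (φ (F x)) (φ (F y)) :=
          dist_triangle _ _ _
      _ < ε / 2 + ε / 2 := by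
          rw [dist_comm (φ (F x))]
          exact add_lt_add e1 e2
      _ = ε := by ring
  choose K hK1 hK2 hK3 η hη hK4 using key
  obtain ⟨t, -, ht⟩ := isCompact_univ.elim_nhds_subcover K (fun x _ => hK2 x)
  let p : Fin t.card → N := fun i => (t.equivFin.symm i : N)
  have hp : ∀ x : N, ∃ i, x ∈ K (p i) := by
    intro x
    have hx := ht (mem_univ x)
    rw [mem_iUnion₂] at hx
    obtain ⟨y, hy, hxy⟩ := hx
    refine ⟨t.equivFin ⟨y, hy⟩, ?_⟩
    show x ∈ K (t.equivFin.symm (t.equivFin ⟨y, hy⟩) : N)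
    rw [Equiv.symm_apply_apply]
    exact hxy
  let D : StrongData n N :=
    { ι := Fin t.card
      φ := fun i => chartAt (V n) (p i)
      ψ := fun i => chartAt (V n) (F (p i))
      K := fun i => K (p i)
      ε := fun i => η (p i)
      φ_mem := fun i => IsManifold.chart_mem_maximalAtlas _
      ψ_mem := fun i => IsManifold.chart_mem_maximalAtlas _
      lf := locallyFinite_of_finite _
      compact := fun i => hK1 _
      sub := fun i => hK3 _
      pos := fun i => hη _ }
  refine ⟨strongNbhd D 0 F, ?_, ?_, ?_⟩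
  · exact TopologicalSpace.isOpen_generateFrom_of_mem
      ⟨D, 0, F, by exact_mod_cast bot_le, fun i x hx => (hK4 _ x hx).1, rfl⟩
  · intro i x hx
    refine ⟨(hK4 _ x hx).1, fun m _ => ?_⟩
    rw [sub_self, norm_zero]
    exact hη _
  · intro G hG x
    obtain ⟨i, hi⟩ := hp x
    obtain ⟨h1, h2⟩ := hG i x hi
    have h3 := h2 0 le_rfl
    refine (hK4 (p i) x hi).2 (G x) h1 ?_
    have hx : x ∈ (chartAt (V n) (p i)).source := hK3 _ hi
    have e0 : (chartAt (V n) (p i)).symm (chartAt (V n) (p i) x) = x :=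
      (chartAt (V n) (p i)).left_inv hx
    have e1 : iteratedFDeriv ℝ 0 (D.ψ i ∘ G ∘ (D.φ i).symm) (D.φ i x)
      - iteratedFDeriv ℝ 0 (D.ψ i ∘ F ∘ (D.φ i).symm) (D.φ i x) =
      iteratedFDeriv ℝ 0 (fun _ : V n => chartAt (V n) (F (p i)) (G x) -
        chartAt (V n) (F (p i)) (F x)) (D.φ i x) := by
      ext v
      simp only [sub_apply, iteratedFDeriv_zero_apply, Function.comp]
      show chartAt (V n) (F (p i)) (G ((chartAt (V n) (p i)).symm (chartAt (V n) (p i) x))) _ - 
        chartAt (V n) (F (p i)) (F ((chartAt (V n) (p i)).symm (chartAt (V n) (p i) x))) _ = _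
      rw [e0]
      rfl
    rw [e1, norm_iteratedFDeriv_zero] at h3
    exact h3

end Pool.Agent.H246.RS
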