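import Pool.Agent.H246.RS.Mean
import Pool.Agent.H246.RS.Lim
import Pool.Agent.H246.RS.Near
import Pool.Agent.H246.RS.Lat

/-!
# Rotation sets near an `Ω`-stable diffeomorphism
-/

set_option autoImplicit false
set_option linter.unusedSectionVars false

open scoped Manifold ContDiff Topology
open Filter Set Topology MeasureTheory

universe u

namespace Pool.Agent.H246.RS

open Pool.Agent.H718R2.G Pool.Agent.W564.SC Pool.Agent.TH290.CL Pool.Agent.TH80.OMS
open Pool.Agent.TH80.CLX

/-- Every circle-valued map `u` which has a displacement under `f` (that is, `u ∘ f` is homotopic to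
`u`) is homotopic to an integer combination of the components of `U`. -/
def Spans {X : Type u} [TopologicalSpace X] {e : ℕ} (f : X → X)
    (U : X → Fin e → UnitAddCircle) : Prop :=
  ∀ (u : X → UnitAddCircle) (b : X → ℝ), Continuous u → Continuous b →
    (∀ x, u (f x) = u x + ((b x : ℝ) : UnitAddCircle)) →
    ∃ (k : Fin e → ℤ) (g : X → ℝ), Continuous g ∧
      ∀ x, u x = ∑ i, k i • U x i + ((g x : ℝ) : UnitAddCircle)

section spans

variable {X : Type u} [TopologicalSpace X] [CompactSpace X] [T2Space X]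
  [SecondCountableTopology X] [MeasurableSpace X] [BorelSpace X] [PreconnectedSpace X]

theorem coe_sum_zsmul {e : ℕ} (k : Fin e → ℤ) (v : Fin e → ℝ) :
    (((∑ i, (k i : ℝ) * v i : ℝ)) : UnitAddCircle) = ∑ i, k i • ((v i : ℝ) : UnitAddCircle) := by
  have h1 : (((∑ i, (k i : ℝ) * v i : ℝ)) : UnitAddCircle) =
      QuotientAddGroup.mk' (AddSubgroup.zmultiples (1 : ℝ)) (∑ i, (k i : ℝ) * v i) := rfl
  rw [h1, map_sum]
  apply Finset.sum_congr rfl
  intro i _
  have h2 : (k i : ℝ) * v i = k i • v i := (zsmul_eq_mul _ _).symm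
  rw [h2, map_zsmul]
  rfl

theorem rot_spans {e : ℕ} {f : X → X} (hf : Continuous f) (hne : Nonempty X)
    {U U' : X → Fin e → UnitAddCircle}
    {a a' : X → Fin e → ℝ} (h : IsDisp f U a) (hs : Spans f U) (h' : IsDisp f U' a') :
    ∃ (A : Fin e → Fin e → ℤ) (m : Fin e → ℤ), Rot f a' = aff A m '' Rot f a := by
  have key : ∀ i : Fin e, ∃ (k : Fin e → ℤ) (g : X → ℝ), Continuous g ∧
      ∀ x, U' x i = ∑ j, k j • U x j + ((g x : ℝ) : UnitAddCircle) := by
    intro i
    exact hs (fun x => U' x i) (fun x => a' x i) ((continuous_apply i).comp h'.contU)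
      ((continuous_apply i).comp h'.conta) (fun x => h'.disp x i)
  choose A g hg hA using key
  have hm : ∀ i : Fin e, ∃ m : ℤ, ∀ x,
      a' x i - (∑ j, (A i j : ℝ) * a x j + (g i (f x) - g i x)) = m := by
    intro i
    have hw : Continuous fun x => a' x i - (∑ j, (A i j : ℝ) * a x j + (g i (f x) - g i x)) := by
      have h1 : Continuous fun x => a' x i := (continuous_apply i).comp h'.conta
      have h2 : ∀ j, Continuous fun x => a x j := fun j => (continuous_apply j).comp h.conta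
      have h3 : Continuous fun x => g i (f x) := (hg i).comp hf
      have h4 : Continuous fun x => ∑ j, (A i j : ℝ) * a x j :=
        continuous_finsetSum _ fun j _ => (h2 j).const_mul _
      exact h1.sub (h4.add (h3.sub (hg i)))
    have hz : ∀ x, ((a' x i - (∑ j, (A i j : ℝ) * a x j + (g i (f x) - g i x)) : ℝ) :
        UnitAddCircle) = 0 := by
      intro x
      have e1 := h'.disp x i
      rw [hA i (f x), hA i x] at e1
      have e2 : ∑ j, A i j • U (f x) j = ∑ j, A i j • U x j +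
          ∑ j, A i j • ((a x j : ℝ) : UnitAddCircle) := by
        rw [← Finset.sum_add_distrib]
        apply Finset.sum_congr rfl
        intro j _
        rw [h.disp, smul_add]
      rw [e2] at e1
      rw [AddCircle.coe_sub, AddCircle.coe_add, AddCircle.coe_sub, coe_sum_zsmul]
      have e3 : ((a' x i : ℝ) : UnitAddCircle) =
          ∑ j, A i j • ((a x j : ℝ) : UnitAddCircle) + (((g i (f x) : ℝ) : UnitAddCircle) -
            ((g i x : ℝ) : UnitAddCircle)) := by
        have e4 : ((a' x i : ℝ) : UnitAddCircle) =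
          (∑ j, A i j • U x j + ((g i x : ℝ) : UnitAddCircle) + ((a' x i : ℝ) : UnitAddCircle)) -
            (∑ j, A i j • U x j + ((g i x : ℝ) : UnitAddCircle)) := by abel
        rw [e4, ← e1]
        abel
      rw [e3, sub_self]
    obtain ⟨x₀⟩ := hne
    obtain ⟨m, hm⟩ := exists_int_of_coe (hz x₀)
    exact ⟨m, fun x => by rw [← hm]; exact int_const hw hz x x₀⟩
  choose m hm using hm
  refine ⟨A, m, ?_⟩
  have hgc : Continuous fun x : X => fun i => g i x := continuous_pi hg
  have := rot_cohom (a' := a') hf h.conta hgc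
    (LinearMap.toContinuousLinearMap (Matrix.toLin' (Matrix.of fun i k => (A i k : ℝ))))
    (fun i => (m i : ℝ)) (by
      intro x
      funext i
      have h1 := hm i x
      have h2 : (LinearMap.toContinuousLinearMap (Matrix.toLin' (Matrix.of fun i k => (A i k : ℝ))))
          (a x) i = ∑ j, (A i j : ℝ) * a x j := by
        simp [Matrix.mulVec, dotProduct]
      show a' x i = (LinearMap.toContinuousLinearMap
        (Matrix.toLin' (Matrix.of fun i k => (A i k : ℝ)))) (a x) i + (g i (f x) - g i x) + m i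
      rw [h2]
      linarith)
  rw [this]
  apply image_congr
  intro v _
  rw [aff_eq]
  rfl

end spans

section disp

variable {X : Type u} [TopologicalSpace X]

/-- two displacements of the same map under close maps -/
theorem disp_dist {e : ℕ} {f g : X → X} {U : X → Fin e → UnitAddCircle} {a a' : X → Fin e → ℝ}
    (h : IsDisp f U a) (h' : IsDisp g U a') (x : X) (hx : ‖a' x - a x‖ < 1 / 4) :
    ‖a' x - a x‖ = ‖U (g x) - U (f x)‖ := by
  have key : ∀ i, ‖(a' x - a x) i‖ = ‖(U (g x) - U (f x)) i‖ := by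
    intro i
    have h1 : (U (g x) - U (f x)) i = (((a' x i - a x i : ℝ)) : UnitAddCircle) := by
      show U (g x) i - U (f x) i = _
      rw [h.disp, h'.disp, AddCircle.coe_sub]
      abel
    rw [h1]
    symm
    have h2 : |a' x i - a x i| < 1 / 4 := (norm_le_pi_norm (a' x - a x) i).trans_lt hx
    refine (AddCircle.norm_coe_eq_abs_iff (p := (1 : ℝ)) one_ne_zero).2 ?_
    rw [abs_one]
    linarith
  apply le_antisymm
  · rw [pi_norm_le_iff_of_nonneg (norm_nonneg _)]
    intro i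
    rw [key]
    exact norm_le_pi_norm _ i
  · rw [pi_norm_le_iff_of_nonneg (norm_nonneg _)]
    intro i
    rw [← key]
    exact norm_le_pi_norm _ i

theorem exists_disp {e : ℕ} {f g : X → X} (hf : Continuous f) (hg : Continuous g)
    {U : X → Fin e → UnitAddCircle} {a : X → Fin e → ℝ}
    (h : IsDisp f U a) (hfg : ∀ x, dist (U (g x)) (U (f x)) < 1 / 4) :
    ∃ a' : X → Fin e → ℝ, IsDisp g U a' ∧ ∀ x, ‖a' x - a x‖ < 1 / 4 := by
  have key : ∀ i : Fin e, ∃ z : X → ℝ, Continuous z ∧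
      (∀ x, ((z x : ℝ) : UnitAddCircle) = U (g x) i - U (f x) i) ∧ ∀ x, |z x| < 1 / 4 := by
    intro i
    refine exists_lift (z := fun x => U (g x) i - U (f x) i) ?_ (by norm_num) ?_
    · exact ((continuous_apply i).comp (h.contU.comp hg)).sub
        ((continuous_apply i).comp (h.contU.comp hf))
    · intro x
      refine lt_of_le_of_lt ?_ (hfg x)
      rw [dist_eq_norm]
      exact norm_le_pi_norm (U (g x) - U (f x)) i
  choose z hz1 hz2 hz3 using key
  refine ⟨fun x i => a x i + z i x, ⟨h.contU, ?_, ?_⟩, ?_⟩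
  · refine continuous_pi fun i => ?_
    exact ((continuous_apply i).comp h.conta).add (hz1 i)
  · intro x i
    rw [AddCircle.coe_add, hz2, h.disp]
    abel
  · intro x
    rw [pi_norm_lt_iff (by norm_num)]
    intro i
    show ‖a x i + z i x - a x i‖ < 1 / 4
    rw [add_sub_cancel_left]
    exact hz3 i x

end disp

variable {n : ℕ} {N : Type u} [TopologicalSpace N] [ChartedSpace (V n) N] [IsManifold (𝓡 n) ∞ N]
  [T2Space N] [CompactSpace N] [MeasurableSpace N] [BorelSpace N]

/-- Rotation sets are upper semicontinuous. -/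
theorem semicont (r : ℕ∞) (F : DiffM n N r) {e : ℕ} {U : N → Fin e → UnitAddCircle}
    {a : N → Fin e → ℝ} (hU : IsDisp F U a) {δ : ℝ} (hδ : 0 < δ) :
    ∃ 𝒰 : Set (DiffM n N r), IsOpen[strongTop n N r] 𝒰 ∧ F ∈ 𝒰 ∧ ∀ G ∈ 𝒰,
      ∀ a' : N → Fin e → ℝ, IsDisp G U a' → (∀ x, ‖a' x - a x‖ < 1 / 4) →
        Rot G a' ⊆ Metric.thickening δ (Rot F a) := by
  have : SecondCountableTopology N := ChartedSpace.secondCountable_of_sigmaCompact (V n) N
  by_contra hcon
  push Not at hcon
  let ι := {p : DiffM n N r × (N → Fin e → ℝ) × (Fin e → ℝ) //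
    IsDisp p.1 U p.2.1 ∧ (∀ x, ‖p.2.1 x - a x‖ < 1 / 4) ∧ p.2.2 ∈ Rot p.1 p.2.1 ∧
      p.2.2 ∉ Metric.thickening δ (Rot F a)}
  let L : Filter (DiffM n N r) := @nhds _ (strongTop n N r) F
  have hne : (comap (fun p : ι => p.1.1) L).NeBot := by
    rw [comap_neBot_iff]
    intro S hS
    obtain ⟨𝒰, hsub, hopen, hmem⟩ := (@mem_nhds_iff _ (strongTop n N r) F S).1 hS
    obtain ⟨G, hG, a', ha', hclose, hnot⟩ := hcon 𝒰 hopen hmem
    rw [Set.not_subset] at hnot
    obtain ⟨w, hw1, hw2⟩ := hnot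
    exact ⟨⟨(G, a', w), ha', hclose, hw1, hw2⟩, hsub hG⟩
  let l : Ultrafilter ι := Ultrafilter.of (comap (fun p : ι => p.1.1) L)
  have hl : (l : Filter ι) ≤ comap (fun p : ι => p.1.1) L := Ultrafilter.of_le _
  have hev : ∀ 𝒰 : Set (DiffM n N r), IsOpen[strongTop n N r] 𝒰 → F ∈ 𝒰 →
      ∀ᶠ p in (l : Filter ι), p.1.1 ∈ 𝒰 := by
    intro 𝒰 h1 h2
    have h3 : 𝒰 ∈ L := @IsOpen.mem_nhds _ (strongTop n N r) F 𝒰 h1 h2
    exact hl (preimage_mem_comap h3)
  obtain ⟨v, hv, hlim⟩ := limit_rot (X := N) F.continuous hU.conta l (fun p => (p.1.1 : N → N))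
    (fun p => p.1.1.continuous) (fun p => p.1.2.1) (fun p => p.2.1.conta)
    (by
      intro φ ε hε
      obtain ⟨𝒰, h1, h2, h3⟩ := near r F φ.continuous hε
      filter_upwards [hev 𝒰 h1 h2] with p hp x
      have := h3 _ hp x
      rwa [Real.dist_eq] at this)
    (by
      intro ε hε
      obtain ⟨𝒰, h1, h2, h3⟩ := near r F hU.contU hε
      filter_upwards [hev 𝒰 h1 h2] with p hp x
      rw [disp_dist hU p.2.1 x (p.2.2.1 x), ← dist_eq_norm]
      exact h3 _ hp x)
    (fun p => p.1.2.2) (fun p => p.2.2.2.1)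
  have h4 : ∀ᶠ p in (l : Filter ι), p.1.2.2 ∈ Metric.thickening δ (Rot F a) :=
    hlim (Metric.isOpen_thickening.mem_nhds (Metric.self_subset_thickening hδ _ hv))
  obtain ⟨p, hp⟩ := h4.exists
  exact p.2.2.2.2 hp

/-- a conjugacy of the nonwandering sets is a conjugacy if the nonwandering sets are the whole
space -/
theorem conj_of_omega {F G : N → N} (hF : Omega F = univ) (hG : Omega G = univ)
    (h : OmegaConj F G) : ∃ φ : N ≃ₜ N, ∀ x, φ (F x) = G (φ x) := by
  obtain ⟨h, hh⟩ := h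
  refine ⟨(Homeomorph.Set.univ N).symm.trans ((Homeomorph.setCongr hF.symm).trans
    (h.trans ((Homeomorph.setCongr hG).trans (Homeomorph.Set.univ N)))), fun x => ?_⟩
  have hx : x ∈ Omega F := by rw [hF]; exact mem_univ x
  have hFx : F x ∈ Omega F := by rw [hF]; exact mem_univ _
  have := hh ⟨x, hx⟩ ⟨F x, hFx⟩ rfl
  show ((h ⟨F x, hFx⟩ : Omega G) : N) = G (h ⟨x, hx⟩ : Omega G)
  exact this.symm

/-- The rotation set of a conjugate map. -/
theorem rot_conj_spans [SecondCountableTopology N] [PreconnectedSpace N] (hne : Nonempty N)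
    {F G : N → N} (hF : Continuous F)
    (hG : Continuous G) (φ : N ≃ₜ N) (hφ : ∀ x, φ (F x) = G (φ x)) {e : ℕ}
    {U : N → Fin e → UnitAddCircle} {a a' : N → Fin e → ℝ} (hU : IsDisp F U a) (hs : Spans F U)
    (hU' : IsDisp G U a') :
    ∃ (A : Fin e → Fin e → ℤ) (m : Fin e → ℤ), Rot G a' = aff A m '' Rot F a := by
  have h1 : IsDisp F (fun x => U (φ x)) (fun x => a' (φ x)) :=
    ⟨hU'.contU.comp φ.continuous, hU'.conta.comp φ.continuous, fun x i => by
      rw [hφ]; exact hU'.disp _ _⟩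
  obtain ⟨A, m, h2⟩ := rot_spans hF hne hU hs h1
  exact ⟨A, m, by rw [← h2]; exact rot_conj hF hG φ hφ a'⟩

/-- Rigidity of the rotation set. -/
theorem rigid (r : ℕ∞) (F : DiffM n N r) (hF : OmegaStable n N r F) [PreconnectedSpace N]
    (hne : Nonempty N) (hΩ : Omega F = univ) {e : ℕ} {U : N → Fin e → UnitAddCircle}
    {a : N → Fin e → ℝ} (hU : IsDisp F U a) (hs : Spans F U) (hint : (interior (Rot F a)).Nonempty) :
    ∃ 𝒰 : Set (DiffM n N r), IsOpen[strongTop n N r] 𝒰 ∧ F ∈ 𝒰 ∧ ∀ G ∈ 𝒰, Omega G = univ →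
      (∃ a' : N → Fin e → ℝ, IsDisp G U a' ∧ ∀ x, ‖a' x - a x‖ < 1 / 4) ∧
      ∀ a' : N → Fin e → ℝ, IsDisp G U a' → (∀ x, ‖a' x - a x‖ < 1 / 4) →
        Rot G a' ⊆ Rot F a ∧ (Spans G U → Rot G a' = Rot F a) := by
  have : SecondCountableTopology N := ChartedSpace.secondCountable_of_sigmaCompact (V n) N
  have hb := rot_bounded (f := F) hU.conta
  have hcl := rot_closed F.continuous hU.conta
  obtain ⟨δ, hδ, hd⟩ := exists_delta hb hcl hint
  obtain ⟨𝒰₁, h1, h2, h3⟩ := hF
  obtain ⟨𝒰₂, h4, h5, h6⟩ := near r F hU.contU (ε := 1 / 4) (by norm_num)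
  obtain ⟨𝒰₃, h7, h8, h9⟩ := semicont r F hU hδ
  refine ⟨𝒰₁ ∩ (𝒰₂ ∩ 𝒰₃), ?_, ⟨h2, h5, h8⟩, ?_⟩
  · exact @IsOpen.inter _ (strongTop n N r) _ _ h1 (@IsOpen.inter _ (strongTop n N r) _ _ h4 h7)
  · rintro G ⟨hG1, hG2, hG3⟩ hGΩ
    refine ⟨exists_disp F.continuous G.continuous hU (h6 G hG2), fun a' ha' hclose => ?_⟩
    obtain ⟨φ, hφ⟩ := conj_of_omega hΩ hGΩ (h3 G hG1)
    obtain ⟨A, m, hA⟩ := rot_conj_spans hne F.continuous G.continuous φ hφ hU hs ha'
    have hsub : Rot G a' ⊆ Rot F a := by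
      rw [hA]
      apply hd
      rw [← hA]
      exact h9 G hG3 a' ha' hclose
    refine ⟨hsub, fun hsG => ?_⟩
    have hφ' : ∀ x, φ.symm (G x) = F (φ.symm x) := by
      intro x
      rw [Homeomorph.symm_apply_eq, hφ, φ.apply_symm_apply]
    obtain ⟨A', m', hA'⟩ := rot_conj_spans hne G.continuous F.continuous φ.symm hφ' ha' hsG hU
    exact eq_of_both hb (rot_convex hU.conta) (rot_closed G.continuous ha'.conta) hint hA hA' hsub

/-- The mean rotation vector of a conservative `Ω`-stable diffeomorphism is an interior point of the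
rotation set. -/
theorem conservative (r : ℕ∞) (hr : 1 ≤ r) (F : DiffM n N r) (hF : OmegaStable n N r F)
    [PreconnectedSpace N]
    (μ : Measure N) [IsProbabilityMeasure μ] [μ.IsOpenPosMeasure] (hFμ : MeasurePreserving F μ μ)
    {e : ℕ} {U : N → Fin e → UnitAddCircle} {a : N → Fin e → ℝ} (hU : IsDisp F U a)
    (hs : Spans F U)
    {ψ : Fin e → ℝ → N → N} (hψ : ∀ i, IsFlow n N (ψ i)) (hμ : ∀ i t, MeasurePreserving (ψ i t) μ μ)
    {b : Fin e → ℝ → N → Fin e → ℝ} (hb : ∀ i, IsDrift (ψ i) U (b i))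
    (hli : LinearIndependent ℝ fun i => ∫ x, b i 1 x ∂μ) :
    ∫ x, a x ∂μ ∈ interior (Rot F a) := by
  classical
  have : SecondCountableTopology N := ChartedSpace.secondCountable_of_sigmaCompact (V n) N
  have hne : Nonempty N := by
    by_contra hemp
    rw [not_nonempty_iff] at hemp
    have := measure_univ (μ := μ)
    rw [Set.univ_eq_empty_iff.2 hemp, measure_empty] at this
    exact zero_ne_one this
  have hΩ : Omega F = univ := omega_univ μ hFμ
  have hint : (interior (Rot F a)).Nonempty := by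
    obtain ⟨𝒰₁, h1, h2, h3⟩ := id hF
    obtain ⟨G, hG, hGμ, a', ha', hmean⟩ := exists_mean r hr F hF μ hFμ hU hψ hμ hb hli 𝒰₁ h1 h2
    obtain ⟨φ, hφ⟩ := conj_of_omega hΩ (omega_univ μ hGμ) (h3 G hG)
    obtain ⟨A, m, hA⟩ := rot_conj_spans hne F.continuous G.continuous φ hφ hU hs ha'
    by_contra hemp
    rw [not_nonempty_iff_eq_empty] at hemp
    have h4 : volume (Rot F a) = 0 := by
      have h5 := (rot_convex (f := F) hU.conta).addHaar_frontier volume
      refine measure_mono_null ?_ h5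
      intro v hv
      refine ⟨subset_closure hv, ?_⟩
      rw [hemp]
      exact notMem_empty v
    have h6 := volume_aff A m (Rot F a)
    rw [← hA, h4, mul_zero] at h6
    have h7 : 0 < volume (Rot G a') :=
      (isOpen_interior.measure_pos volume ⟨_, hmean⟩).trans_le (measure_mono interior_subset)
    exact h7.ne' h6
  obtain ⟨𝒰, h1, h2, h3⟩ := rigid r F hF hne hΩ hU hs hint
  obtain ⟨H, D, g1, g2, g3, g4, g5, g6, g7⟩ := exists_family r F μ hFμ hU hψ hμ hb
  obtain ⟨z⟩ := hne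
  obtain ⟨κ, hκ, hm⟩ := fam_mem r hr H g1 z 𝒰 h1 (by rw [g2]; exact h2)
  have hclose : ∀ᶠ t in 𝓝 (0 : Fin e → ℝ), ∀ x ∈ (univ : Set N), ‖D t x - a x‖ < 1 / 4 := by
    apply isCompact_univ.eventually_forall_of_forall_eventually
    intro x _
    have hc : Continuous fun q : (Fin e → ℝ) × N => ‖D q.1 q.2 - a q.2‖ :=
      (g4.sub (hU.conta.comp continuous_snd)).norm
    refine hc.continuousAt.eventually (Iio_mem_nhds ?_)
    show ‖D 0 x - a x‖ < 1 / 4
    rw [g5, sub_self, norm_zero]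
    norm_num
  obtain ⟨κ', hκ', hκ''⟩ := Metric.eventually_nhds_iff.1 hclose
  let c : Fin e → (Fin e → ℝ) := fun i => ∫ x, b i 1 x ∂μ
  let L : (Fin e → ℝ) →ₗ[ℝ] (Fin e → ℝ) := Fintype.linearCombination ℝ c
  have hL : ∀ t, L t = ∑ i, t i • c i := fun t => Fintype.linearCombination_apply ℝ c t
  have hinj : Function.Injective L := LinearIndependent.fintypeLinearCombination_injective hli
  have hsurj : Function.Surjective L := LinearMap.injective_iff_surjective.1 hinj
  have hopen : IsOpenMap L := L.isOpenMap_of_finiteDimensional hsurj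
  have hO : IsOpen ((fun v => (∫ x, a x ∂μ) + v) '' (L '' Metric.ball 0 (min κ κ'))) :=
    (Homeomorph.addLeft (∫ x, a x ∂μ)).isOpenMap _
      (hopen _ (Metric.isOpen_ball (x := 0) (ε := min κ κ')))
  refine mem_interior.2 ⟨_, ?_, hO, ?_⟩
  · rintro _ ⟨_, ⟨t, ht, rfl⟩, rfl⟩
    have ht' : ‖t‖ < min κ κ' := by simpa using ht
    have ht1 : ‖t‖ < κ := ht'.trans_le (min_le_left _ _)
    have ht2 : ∀ x, ‖D t x - a x‖ < 1 / 4 := fun x =>
      hκ'' (by rw [dist_zero_right]; exact ht'.trans_le (min_le_right _ _)) x (mem_univ x)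
    have h4 := (h3 (H t) (hm t ht1) (omega_univ μ (g3 t))).2 (D t) (g6 t) ht2
    apply h4.1
    refine ⟨μ, inferInstance, g3 t, ?_⟩
    show (∫ x, a x ∂μ) + L t = _
    rw [hL, g7]
  · refine ⟨0, ⟨0, ?_, map_zero L⟩, add_zero _⟩
    exact Metric.mem_ball_self (lt_min hκ hκ')

end Pool.Agent.H246.RS
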