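import Mathlib

/-!
# Displacements and rotation sets

`UnitAddCircle` is `ℝ / ℤ`.  For a map `f : X → X` a map `U : X → 𝕋^e` with a displacement
`a : X → ℝ^e`, `U (f x) = U x + a x mod ℤ^e`; the rotation set of `(f, a)` is the set of the integrals
`∫ a dν` for the invariant probability measures `ν` of `f`.
-/

set_option autoImplicit false
set_option linter.unusedSectionVars false

open Filter Set Topology MeasureTheory

universe u

namespace Pool.Agent.H246.RS

/-- `a` is a displacement of the continuous map `U : X → 𝕋^e` under `f`: both are continuous and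
`U ∘ f = U + a mod ℤ^e` (so `U ∘ f` is homotopic to `U`). -/
structure IsDisp {X : Type u} [TopologicalSpace X] {e : ℕ} (f : X → X)
    (U : X → Fin e → UnitAddCircle) (a : X → Fin e → ℝ) : Prop where
  contU : Continuous U
  conta : Continuous a
  disp : ∀ x i, U (f x) i = U x i + ((a x i : ℝ) : UnitAddCircle)

/-- The rotation set: the integrals of `a` for the invariant probability measures of `f`. -/
def Rot {X : Type u} [MeasurableSpace X] {e : ℕ} (f : X → X) (a : X → Fin e → ℝ) :
    Set (Fin e → ℝ) :=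
  {v | ∃ ν : Measure X, IsProbabilityMeasure ν ∧ MeasurePreserving f ν ν ∧ v = ∫ x, a x ∂ν}

/-- a circle-valued function close to zero lifts -/
theorem exists_lift {X : Type u} [TopologicalSpace X] {z : X → UnitAddCircle} (hz : Continuous z)
    {c : ℝ} (hc : c ≤ 1 / 2) (hsmall : ∀ x, ‖z x‖ < c) :
    ∃ g : X → ℝ, Continuous g ∧ (∀ x, ((g x : ℝ) : UnitAddCircle) = z x) ∧ ∀ x, |g x| < c := by
  have hne : ∀ x, z x ∈ (AddCircle.openPartialHomeomorphCoe (1 : ℝ) (-(1 / 2) : ℝ)).target := by
    intro x hx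
    have h1 : z x = ((-(1 / 2) : ℝ) : UnitAddCircle) := hx
    have h2 := hsmall x
    have h3 : ‖((-(1 / 2) : ℝ) : UnitAddCircle)‖ = |(-(1 / 2) : ℝ)| := by
      refine (AddCircle.norm_coe_eq_abs_iff (p := (1 : ℝ)) one_ne_zero).2 ?_
      rw [abs_neg, abs_one, abs_of_pos (by norm_num : (0 : ℝ) < 1 / 2)]
    rw [h1, h3, abs_neg, abs_of_pos (by norm_num : (0 : ℝ) < 1 / 2)] at h2
    linarith
  refine ⟨fun x => (AddCircle.openPartialHomeomorphCoe (1 : ℝ) (-(1 / 2) : ℝ)).symm (z x), ?_, ?_, ?_⟩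
  · exact (AddCircle.openPartialHomeomorphCoe (1 : ℝ) (-(1 / 2) : ℝ)).continuousOn_symm.comp_continuous
      hz hne
  · intro x
    exact (AddCircle.openPartialHomeomorphCoe (1 : ℝ) (-(1 / 2) : ℝ)).right_inv (hne x)
  · intro x
    have h1 := (AddCircle.openPartialHomeomorphCoe (1 : ℝ) (-(1 / 2) : ℝ)).map_target (hne x)
    have h2 : (((AddCircle.openPartialHomeomorphCoe (1 : ℝ) (-(1 / 2) : ℝ)).symm (z x) : ℝ) :
        UnitAddCircle) = z x :=
      (AddCircle.openPartialHomeomorphCoe (1 : ℝ) (-(1 / 2) : ℝ)).right_inv (hne x)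
    set g := (AddCircle.openPartialHomeomorphCoe (1 : ℝ) (-(1 / 2) : ℝ)).symm (z x) with hg
    have h4 : g ∈ Ioo (-(1 / 2) : ℝ) (-(1 / 2) + 1) := h1
    have h5 : ‖(g : UnitAddCircle)‖ = |g| := by
      refine (AddCircle.norm_coe_eq_abs_iff (p := (1 : ℝ)) one_ne_zero).2 ?_
      rw [abs_one, abs_le]
      constructor <;> linarith [h4.1, h4.2]
    have h6 := hsmall x
    rw [← h2, h5] at h6
    exact h6

/-- a small integer-valued quantity vanishes -/
theorem eq_zero_of_coe {w : ℝ} (h : ((w : ℝ) : UnitAddCircle) = 0) (hw : |w| < 1) : w = 0 := by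
  rw [AddCircle.coe_eq_zero_iff] at h
  obtain ⟨m, hm⟩ := h
  have hm' : (m : ℝ) = w := by simpa using hm
  have h1 : |(m : ℝ)| < 1 := by rw [hm']; exact hw
  have h2 : |m| < 1 := by exact_mod_cast h1
  have h3 : m = 0 := Int.abs_lt_one_iff.1 h2
  rw [← hm', h3, Int.cast_zero]

theorem exists_int_of_coe {w : ℝ} (h : ((w : ℝ) : UnitAddCircle) = 0) : ∃ m : ℤ, w = m := by
  rw [AddCircle.coe_eq_zero_iff] at h
  obtain ⟨m, hm⟩ := h
  exact ⟨m, by simpa using hm.symm⟩

section meas

variable {X : Type u} [TopologicalSpace X] [CompactSpace X] [MeasurableSpace X] [BorelSpace X]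
  {e : ℕ}

theorem integrable_of_cont {a : X → Fin e → ℝ} (ha : Continuous a) (ν : Measure X)
    [IsFiniteMeasure ν] : Integrable a ν :=
  (BoundedContinuousFunction.mkOfCompact ⟨a, ha⟩).integrable ν

theorem integral_comp {f : X → X} {ν : Measure X} [IsFiniteMeasure ν]
    (hν : MeasurePreserving f ν ν) {a : X → Fin e → ℝ} (ha : Continuous a) :
    ∫ x, a (f x) ∂ν = ∫ x, a x ∂ν := by
  have h1 : Integrable a (Measure.map f ν) := by
    rw [hν.map_eq]
    exact integrable_of_cont ha ν
  rw [← integral_map hν.measurable.aemeasurable h1.aestronglyMeasurable, hν.map_eq]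

/-- Rotation sets of cohomologous displacements. -/
theorem rot_cohom {e' : ℕ} {f : X → X} (hf : Continuous f) {a : X → Fin e → ℝ} (ha : Continuous a)
    {a' : X → Fin e' → ℝ} {g : X → Fin e' → ℝ} (hg : Continuous g)
    (A : (Fin e → ℝ) →L[ℝ] (Fin e' → ℝ)) (m : Fin e' → ℝ)
    (h : ∀ x, a' x = A (a x) + (g (f x) - g x) + m) :
    Rot f a' = (fun v => A v + m) '' Rot f a := by
  have key : ∀ ν : Measure X, IsProbabilityMeasure ν → MeasurePreserving f ν ν →
      ∫ x, a' x ∂ν = A (∫ x, a x ∂ν) + m := by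
    intro ν hν1 hν
    have e1 : ∫ x, a' x ∂ν = ∫ x, (A (a x) + (g (f x) - g x) + m) ∂ν := by
      congr 1
      funext x
      exact h x
    have i1 : Integrable (fun x => A (a x)) ν := integrable_of_cont (A.continuous.comp ha) ν
    have i2 : Integrable (fun x => g (f x)) ν := integrable_of_cont (hg.comp hf) ν
    have i3 : Integrable g ν := integrable_of_cont hg ν
    have i4 : Integrable (fun x => g (f x) - g x) ν := i2.sub i3
    have i5 : Integrable (fun x => A (a x) + (g (f x) - g x)) ν := i1.add i4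
    rw [e1, integral_add i5 (integrable_const _), integral_add i1 i4, integral_sub i2 i3,
      integral_comp hν hg, sub_self, add_zero, integral_const, probReal_univ, one_smul,
      ContinuousLinearMap.integral_comp_comm A (integrable_of_cont ha ν)]
  ext v
  constructor
  · rintro ⟨ν, hν1, hν, rfl⟩
    exact ⟨_, ⟨ν, hν1, hν, rfl⟩, (key ν hν1 hν).symm⟩
  · rintro ⟨w, ⟨ν, hν1, hν, rfl⟩, rfl⟩
    exact ⟨ν, hν1, hν, (key ν hν1 hν).symm⟩

/-- The rotation sets are convex. -/
theorem rot_convex {f : X → X} {a : X → Fin e → ℝ} (ha : Continuous a) : Convex ℝ (Rot f a) := by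
  rintro v ⟨ν, hν1, hν, rfl⟩ w ⟨ν', hν1', hν', rfl⟩ s t hs ht hst
  have hfin1 : IsFiniteMeasure (ENNReal.ofReal s • ν) := ν.smul_finite ENNReal.ofReal_ne_top
  have hfin2 : IsFiniteMeasure (ENNReal.ofReal t • ν') := ν'.smul_finite ENNReal.ofReal_ne_top
  refine ⟨ENNReal.ofReal s • ν + ENNReal.ofReal t • ν', ⟨?_⟩, ⟨hν.measurable, ?_⟩, ?_⟩
  · rw [Measure.add_apply, Measure.smul_apply, Measure.smul_apply, measure_univ, measure_univ,
      smul_eq_mul, smul_eq_mul, mul_one, mul_one, ← ENNReal.ofReal_add hs ht, hst, ENNReal.ofReal_one]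
  · rw [Measure.map_add _ _ hν.measurable, Measure.map_smul, Measure.map_smul, hν.map_eq,
      hν'.map_eq]
  · rw [integral_add_measure (integrable_of_cont ha _) (integrable_of_cont ha _),
      integral_smul_measure, integral_smul_measure, ENNReal.toReal_ofReal hs,
      ENNReal.toReal_ofReal ht]

end meas

section count

variable {X : Type u} [TopologicalSpace X] [CompactSpace X] [T2Space X]
  [SecondCountableTopology X] [MeasurableSpace X] [BorelSpace X]

/-- Near a pair `(U, a)` all pairs have the same rotation set. -/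
theorem rot_eq_of_near {e : ℕ} {f : X → X} (hf : Continuous f) {U U' : X → Fin e → UnitAddCircle}
    {a a' : X → Fin e → ℝ} (h : IsDisp f U a) (h' : IsDisp f U' a')
    (hU : ∀ x, ‖U' x - U x‖ < 1 / 4) (ha : ∀ x, ‖a' x - a x‖ < 1 / 4) : Rot f a' = Rot f a := by
  have key : ∀ i : Fin e, ∃ g : X → ℝ, Continuous g ∧
      (∀ x, ((g x : ℝ) : UnitAddCircle) = U' x i - U x i) ∧ ∀ x, |g x| < 1 / 4 := by
    intro i
    refine exists_lift (z := fun x => U' x i - U x i) ?_ (by norm_num) ?_
    · exact ((continuous_apply i).comp h'.contU).sub ((continuous_apply i).comp h.contU)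
    · intro x
      refine lt_of_le_of_lt ?_ (hU x)
      exact norm_le_pi_norm (U' x - U x) i
  choose g hg1 hg2 hg3 using key
  have hgc : Continuous fun x : X => fun i => g i x := continuous_pi hg1
  have := rot_cohom (a' := a') hf h.conta hgc (ContinuousLinearMap.id ℝ (Fin e → ℝ)) 0 (by
    intro x
    funext i
    have h1 : (((a' x i - a x i - (g i (f x) - g i x) : ℝ)) : UnitAddCircle) = 0 := by
      have e1 := h.disp x i
      have e2 := h'.disp x i
      rw [AddCircle.coe_sub, AddCircle.coe_sub, AddCircle.coe_sub, hg2, hg2, e1, e2]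
      abel
    have h2 : |a' x i - a x i| < 1 / 4 := by
      have := (norm_le_pi_norm (a' x - a x) i).trans_lt (ha x)
      simpa using this
    have h3 := eq_zero_of_coe h1 (by
      have h4 := hg3 i (f x)
      have h5 := hg3 i x
      rw [abs_lt] at h2 h4 h5 ⊢
      constructor <;> linarith)
    show a' x i = a x i + (g i (f x) - g i x) + 0
    linarith)
  rw [this]
  simp

/-- A map has only countably many rotation sets. -/
theorem countable_rot {e : ℕ} {f : X → X} (hf : Continuous f) :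
    {R | ∃ (U : X → Fin e → UnitAddCircle) (a : X → Fin e → ℝ), IsDisp f U a ∧
      R = Rot f a}.Countable := by
  classical
  let P := {p : C(X, Fin e → UnitAddCircle) × C(X, Fin e → ℝ) // IsDisp f p.1 p.2}
  have hnb : ∀ p : P, {q : P | ∀ x, ‖q.1.1 x - p.1.1 x‖ < 1 / 4 ∧ ‖q.1.2 x - p.1.2 x‖ < 1 / 4} ∈
      𝓝 p := by
    intro p
    have h1 : Continuous fun q : P => dist q.1.1 p.1.1 := by fun_prop
    have h2 : Continuous fun q : P => dist q.1.2 p.1.2 := by fun_prop
    have h3 : ∀ᶠ q in 𝓝 p, dist q.1.1 p.1.1 < 1 / 4 := by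
      refine h1.continuousAt.eventually (Iio_mem_nhds ?_)
      show dist p.1.1 p.1.1 < 1 / 4
      rw [dist_self]; norm_num
    have h4 : ∀ᶠ q in 𝓝 p, dist q.1.2 p.1.2 < 1 / 4 := by
      refine h2.continuousAt.eventually (Iio_mem_nhds ?_)
      show dist p.1.2 p.1.2 < 1 / 4
      rw [dist_self]; norm_num
    filter_upwards [h3, h4] with q hq1 hq2
    intro x
    rw [← dist_eq_norm, ← dist_eq_norm]
    exact ⟨(ContinuousMap.dist_apply_le_dist x).trans_lt hq1,
      (ContinuousMap.dist_apply_le_dist x).trans_lt hq2⟩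
  obtain ⟨s, hs, hcov⟩ := TopologicalSpace.countable_cover_nhds hnb
  refine (hs.image fun p : P => Rot f p.1.2).mono ?_
  rintro R ⟨U, a, h, rfl⟩
  let q : P := ⟨(⟨U, h.contU⟩, ⟨a, h.conta⟩), h⟩
  have hq : q ∈ ⋃ x ∈ s, {q : P | ∀ y, ‖q.1.1 y - x.1.1 y‖ < 1 / 4 ∧
      ‖q.1.2 y - x.1.2 y‖ < 1 / 4} := by
    rw [hcov]; exact mem_univ _
  rw [mem_iUnion₂] at hq
  obtain ⟨p, hp, hpq⟩ := hq
  refine ⟨p, hp, ?_⟩
  exact (rot_eq_of_near hf p.2 h (fun x => (hpq x).1) (fun x => (hpq x).2)).symm

end count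

end Pool.Agent.H246.RS
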